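import Pool.Agent.P.MP_3d36e1_mp.Defs

set_option autoImplicit false
open MeasureTheory Set Filter
open scoped ContDiff Topology ENNReal

namespace Pool.Agent.P.MP_3d36e1_mp

/-- Gaussian kernel -/
noncomputable def gk (x : R3) (θ : ℝ × R3) : ℝ≥0∞ :=
  ENNReal.ofReal (√(θ.1 ^ 3) * Real.exp (-(θ.1 ^ 2) * ‖x - θ.2‖ ^ 2))

/-- measure on the parameters of the Gaussian kernel -/
noncomputable abbrev gm : Measure (ℝ × R3) := (volume.restrict (Ioi (0 : ℝ))).prod volume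

lemma measurable_gk : Measurable (fun q : R3 × (ℝ × R3) => gk q.1 q.2) := by
  unfold gk; fun_prop

lemma gauss_w (x y : R3) {t : ℝ} (ht : 0 < t) :
    ∫⁻ w, gk x (t, w) * gk y (t, w) =
      ENNReal.ofReal ((Real.pi / 2) ^ (3 / 2 : ℝ) * Real.exp (-(‖x - y‖ ^ 2 / 2) * t ^ 2)) := by
  set m : R3 := (1 / 2 : ℝ) • (x + y) with hm
  have hpar : ∀ w : R3, ‖x - w‖ ^ 2 + ‖y - w‖ ^ 2 = 2 * ‖w - m‖ ^ 2 + ‖x - y‖ ^ 2 / 2 := by
    intro w
    simp only [EuclideanSpace.real_norm_sq_eq, Fin.sum_univ_three, hm, PiLp.sub_apply,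
      PiLp.smul_apply, PiLp.add_apply, smul_eq_mul]
    ring
  have hf : ∀ w : R3, gk x (t, w) * gk y (t, w) = ENNReal.ofReal
      (t ^ 3 * Real.exp (-(‖x - y‖ ^ 2 / 2) * t ^ 2) * Real.exp (-(2 * t ^ 2) * ‖w - m‖ ^ 2)) := by
    intro w
    unfold gk
    rw [← ENNReal.ofReal_mul (by positivity)]
    congr 1
    have h3 : √(t ^ 3) * √(t ^ 3) = t ^ 3 := Real.mul_self_sqrt (by positivity)
    rw [mul_mul_mul_comm, h3, mul_assoc, ← Real.exp_add, ← Real.exp_add]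
    congr 2
    have := hpar w
    simp only
    linear_combination (-(t ^ 2)) * this
  simp only [hf]
  have hg := GaussianFourier.integral_rexp_neg_mul_sq_norm (V := R3) (b := 2 * t ^ 2) (by positivity)
  have hfr : (Module.finrank ℝ R3 : ℝ) = 3 := by simp [R3]
  rw [hfr] at hg
  have hg2 : ∫ w : R3, Real.exp (-(2 * t ^ 2) * ‖w - m‖ ^ 2) = (Real.pi / (2 * t ^ 2)) ^ (3 / 2 : ℝ) := by
    rw [← hg]
    exact integral_sub_right_eq_self (fun w : R3 => Real.exp (-(2 * t ^ 2) * ‖w‖ ^ 2)) m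
  have hi : Integrable (fun w : R3 => Real.exp (-(2 * t ^ 2) * ‖w - m‖ ^ 2)) := by
    apply Integrable.of_integral_ne_zero
    rw [hg2]; positivity
  rw [← ofReal_integral_eq_lintegral_ofReal (hi.const_mul _)
    (Eventually.of_forall fun w => by positivity), integral_const_mul, hg2]
  congr 1
  have : (Real.pi / (2 * t ^ 2)) ^ (3 / 2 : ℝ) = (Real.pi / 2) ^ (3 / 2 : ℝ) / t ^ 3 := by
    rw [← div_div, Real.div_rpow (by positivity) (by positivity), ← Real.rpow_natCast t 2,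
      ← Real.rpow_mul ht.le]
    norm_num
  rw [this]
  field_simp

/-- normalisation constant -/
noncomputable def gc : ℝ := (Real.pi / 2) ^ (3 / 2 : ℝ) * (√(2 * Real.pi) / 2)

lemma gc_pos : 0 < gc := by unfold gc; positivity

lemma gauss_rep {x y : R3} (hxy : x ≠ y) :
    ∫⁻ θ, gk x θ * gk y θ ∂gm = ENNReal.ofReal gc * ENNReal.ofReal (1 / ‖x - y‖) := by
  have hr : 0 < ‖x - y‖ := norm_pos_iff.2 (sub_ne_zero.2 hxy)
  have hmeas : Measurable (fun θ => gk x θ * gk y θ) := by unfold gk; fun_prop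
  rw [lintegral_prod _ hmeas.aemeasurable]
  rw [setLIntegral_congr_fun measurableSet_Ioi (fun t ht => gauss_w x y ht)]
  have hg := integral_gaussian_Ioi (‖x - y‖ ^ 2 / 2)
  have hi : IntegrableOn (fun t : ℝ => Real.exp (-(‖x - y‖ ^ 2 / 2) * t ^ 2)) (Ioi 0) :=
    (integrable_exp_neg_mul_sq (by positivity)).integrableOn
  rw [← ofReal_integral_eq_lintegral_ofReal (hi.const_mul _)
    (Eventually.of_forall fun w => by positivity), integral_const_mul, hg,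
    ← ENNReal.ofReal_mul gc_pos.le]
  congr 1
  have : √(Real.pi / (‖x - y‖ ^ 2 / 2)) = √(2 * Real.pi) / ‖x - y‖ := by
    rw [show Real.pi / (‖x - y‖ ^ 2 / 2) = 2 * Real.pi / ‖x - y‖ ^ 2 by field_simp,
      Real.sqrt_div (by positivity), Real.sqrt_sq hr.le]
  rw [this, gc]
  ring

lemma ae_off_diag : ∀ᵐ q : R3 × R3, q.1 ≠ q.2 := by
  have hm : MeasurableSet {q : R3 × R3 | q.1 ≠ q.2} :=
    (isClosed_eq continuous_fst continuous_snd).isOpen_compl.measurableSet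
  refine (Measure.ae_prod_iff_ae_ae hm).2 (Eventually.of_forall fun x => ?_)
  rw [ae_iff]; simp

lemma coulomb_rep {f : R3 → ℝ≥0∞} (hf : Measurable f) :
    ENNReal.ofReal gc * ∫⁻ q : R3 × R3, f q.1 * f q.2 * ENNReal.ofReal (1 / ‖q.1 - q.2‖) =
      ∫⁻ θ, (∫⁻ x, f x * gk x θ) ^ 2 ∂gm := by
  rw [← lintegral_const_mul' _ _ ENNReal.ofReal_ne_top]
  have h1 : ∫⁻ q : R3 × R3, ENNReal.ofReal gc * (f q.1 * f q.2 * ENNReal.ofReal (1 / ‖q.1 - q.2‖)) =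
      ∫⁻ q : R3 × R3, ∫⁻ θ, (f q.1 * gk q.1 θ) * (f q.2 * gk q.2 θ) ∂gm := by
    apply lintegral_congr_ae
    filter_upwards [ae_off_diag] with q hq
    have hmeas : Measurable (fun θ => gk q.1 θ * gk q.2 θ) := by unfold gk; fun_prop
    simp only [mul_mul_mul_comm (f q.1)]
    rw [lintegral_const_mul _ hmeas, gauss_rep hq]
    ring
  rw [h1, lintegral_lintegral_swap]
  · congr 1
    funext θ
    have hmeas : Measurable (fun x => f x * gk x θ) := by unfold gk; fun_prop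
    rw [sq]
    exact lintegral_prod_mul hmeas.aemeasurable hmeas.aemeasurable
  · apply Measurable.aemeasurable
    unfold gk Function.uncurry
    fun_prop

lemma ennreal_sq_mid (a b : ℝ≥0∞) : (2⁻¹ * (a + b)) ^ 2 ≤ 2⁻¹ * (a ^ 2 + b ^ 2) := by
  rcases eq_or_ne a ⊤ with rfl | ha
  · simp [ENNReal.mul_top]
  rcases eq_or_ne b ⊤ with rfl | hb
  · simp [ENNReal.mul_top]
  lift a to NNReal using ha
  lift b to NNReal using hb
  have h2 : (2⁻¹ : ℝ≥0∞) = ((2⁻¹ : NNReal) : ℝ≥0∞) := by simp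
  rw [h2]
  norm_cast
  rw [← NNReal.coe_le_coe]
  push_cast
  nlinarith [sq_nonneg ((a : ℝ) - b)]

lemma coulomb_mid_meas {f g : R3 → ℝ≥0∞} (hf : Measurable f) (hg : Measurable g) :
    ∫⁻ q : R3 × R3, (2⁻¹ * (f q.1 + g q.1)) * (2⁻¹ * (f q.2 + g q.2)) *
        ENNReal.ofReal (1 / ‖q.1 - q.2‖) ≤
      2⁻¹ * ((∫⁻ q : R3 × R3, f q.1 * f q.2 * ENNReal.ofReal (1 / ‖q.1 - q.2‖)) +
        ∫⁻ q : R3 × R3, g q.1 * g q.2 * ENNReal.ofReal (1 / ‖q.1 - q.2‖)) := by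
  have hc : ENNReal.ofReal gc ≠ 0 := by simpa using gc_pos
  rw [← ENNReal.mul_le_mul_iff_right hc ENNReal.ofReal_ne_top, mul_left_comm, mul_add,
    coulomb_rep hf, coulomb_rep hg, coulomb_rep (f := fun x => 2⁻¹ * (f x + g x)) (by fun_prop)]
  have hm : ∀ {f : R3 → ℝ≥0∞}, Measurable f → Measurable (fun θ => (∫⁻ x, f x * gk x θ) ^ 2) := by
    intro f hf
    apply Measurable.pow_const
    apply Measurable.lintegral_prod_left (f := fun x θ => f x * gk x θ)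
    unfold gk Function.uncurry
    fun_prop
  rw [← lintegral_add_left (hm hf), ← lintegral_const_mul' _ _ (by simp)]
  apply lintegral_mono
  intro θ
  have hmf : Measurable (fun x => f x * gk x θ) := by unfold gk; fun_prop
  have : ∫⁻ x, 2⁻¹ * (f x + g x) * gk x θ = 2⁻¹ * ((∫⁻ x, f x * gk x θ) + ∫⁻ x, g x * gk x θ) := by
    rw [← lintegral_add_left hmf, ← lintegral_const_mul' _ _ (by simp)]
    congr 1; funext x; ring
  simp only [this]
  exact ennreal_sq_mid _ _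

lemma ae_prod_both {P : R3 → Prop} (h : ∀ᵐ x, P x) : ∀ᵐ q : R3 × R3, P q.1 ∧ P q.2 :=
  (Measure.quasiMeasurePreserving_fst.ae h).and (Measure.quasiMeasurePreserving_snd.ae h)

lemma coulomb_lintegral {ρ : R3 → ℝ} (h0 : ∀ x, 0 ≤ ρ x) {f : R3 → ℝ≥0∞}
    (hf : ∀ᵐ x, ENNReal.ofReal (ρ x) = f x) :
    ∫⁻ q : R3 × R3, ENNReal.ofReal (ρ q.1 * ρ q.2 / ‖q.1 - q.2‖) =
      ∫⁻ q : R3 × R3, f q.1 * f q.2 * ENNReal.ofReal (1 / ‖q.1 - q.2‖) := by
  apply lintegral_congr_ae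
  filter_upwards [ae_prod_both hf] with q hq
  rw [← hq.1, ← hq.2, ← ENNReal.ofReal_mul (h0 _), ← ENNReal.ofReal_mul (mul_nonneg (h0 _) (h0 _))]
  congr 1; ring

lemma coulomb_aemeas {ρ : R3 → ℝ} (h : AEStronglyMeasurable ρ volume) :
    AEStronglyMeasurable (fun q : R3 × R3 => ρ q.1 * ρ q.2 / ‖q.1 - q.2‖) volume := by
  have h1 : AEStronglyMeasurable (fun q : R3 × R3 => ρ q.1) volume := h.comp_fst
  have h2 : AEStronglyMeasurable (fun q : R3 × R3 => ρ q.2) volume := h.comp_snd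
  have h3 : AEStronglyMeasurable (fun q : R3 × R3 => ‖q.1 - q.2‖⁻¹) volume := by
    apply Measurable.aestronglyMeasurable; fun_prop
  simp only [div_eq_mul_inv]
  exact (h1.mul h2).mul h3

/-- midpoint convexity of the Coulomb energy -/
theorem coulomb_mid {ρ₁ ρ₂ : R3 → ℝ} (h1 : ∀ x, 0 ≤ ρ₁ x) (h2 : ∀ x, 0 ≤ ρ₂ x)
    (m1 : AEStronglyMeasurable ρ₁ volume) (m2 : AEStronglyMeasurable ρ₂ volume)
    (i1 : Integrable (fun q : R3 × R3 => ρ₁ q.1 * ρ₁ q.2 / ‖q.1 - q.2‖))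
    (i2 : Integrable (fun q : R3 × R3 => ρ₂ q.1 * ρ₂ q.2 / ‖q.1 - q.2‖)) :
    Integrable (fun q : R3 × R3 => (ρ₁ q.1 + ρ₂ q.1) / 2 * ((ρ₁ q.2 + ρ₂ q.2) / 2) / ‖q.1 - q.2‖) ∧
    ∫ q : R3 × R3, (ρ₁ q.1 + ρ₂ q.1) / 2 * ((ρ₁ q.2 + ρ₂ q.2) / 2) / ‖q.1 - q.2‖ ≤
      ((∫ q : R3 × R3, ρ₁ q.1 * ρ₁ q.2 / ‖q.1 - q.2‖) +
        ∫ q : R3 × R3, ρ₂ q.1 * ρ₂ q.2 / ‖q.1 - q.2‖) / 2 := by
  have a1 : AEMeasurable (fun x => ENNReal.ofReal (ρ₁ x)) volume := m1.aemeasurable.ennreal_ofReal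
  have a2 : AEMeasurable (fun x => ENNReal.ofReal (ρ₂ x)) volume := m2.aemeasurable.ennreal_ofReal
  have key := coulomb_mid_meas a1.measurable_mk a2.measurable_mk
  have h3 : ∀ x, 0 ≤ (ρ₁ x + ρ₂ x) / 2 := fun x => by have := h1 x; have := h2 x; positivity
  rw [← coulomb_lintegral h1 a1.ae_eq_mk, ← coulomb_lintegral h2 a2.ae_eq_mk,
    ← coulomb_lintegral (ρ := fun x => (ρ₁ x + ρ₂ x) / 2)
      (f := fun x => 2⁻¹ * (a1.mk _ x + a2.mk _ x)) h3 (by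
      filter_upwards [a1.ae_eq_mk, a2.ae_eq_mk] with x e1 e2
      rw [← e1, ← e2, ← ENNReal.ofReal_add (h1 x) (h2 x), div_eq_mul_inv, mul_comm,
        ENNReal.ofReal_mul (by norm_num), ENNReal.ofReal_inv_of_pos (by norm_num)]
      simp)] at key
  have n1 : ∀ q : R3 × R3, 0 ≤ ρ₁ q.1 * ρ₁ q.2 / ‖q.1 - q.2‖ := fun q =>
    div_nonneg (mul_nonneg (h1 _) (h1 _)) (norm_nonneg _)
  have n2 : ∀ q : R3 × R3, 0 ≤ ρ₂ q.1 * ρ₂ q.2 / ‖q.1 - q.2‖ := fun q =>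
    div_nonneg (mul_nonneg (h2 _) (h2 _)) (norm_nonneg _)
  have n3 : ∀ q : R3 × R3, 0 ≤ (ρ₁ q.1 + ρ₂ q.1) / 2 * ((ρ₁ q.2 + ρ₂ q.2) / 2) / ‖q.1 - q.2‖ :=
    fun q => div_nonneg (mul_nonneg (h3 _) (h3 _)) (norm_nonneg _)
  rw [← ofReal_integral_eq_lintegral_ofReal i1 (Eventually.of_forall n1),
    ← ofReal_integral_eq_lintegral_ofReal i2 (Eventually.of_forall n2),
    ← ENNReal.ofReal_add (integral_nonneg n1) (integral_nonneg n2)] at key
  have m3 : AEStronglyMeasurable (fun x => (ρ₁ x + ρ₂ x) / 2) volume := by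
    simp only [div_eq_mul_inv]
    exact (m1.add m2).mul_const (2⁻¹ : ℝ)
  have i3 : Integrable
      (fun q : R3 × R3 => (ρ₁ q.1 + ρ₂ q.1) / 2 * ((ρ₁ q.2 + ρ₂ q.2) / 2) / ‖q.1 - q.2‖) := by
    refine ⟨coulomb_aemeas m3, ?_⟩
    rw [hasFiniteIntegral_iff_ofReal (Eventually.of_forall n3)]
    exact lt_of_le_of_lt key (ENNReal.mul_lt_top (by simp) ENNReal.ofReal_lt_top)
  refine ⟨i3, ?_⟩
  rw [← ofReal_integral_eq_lintegral_ofReal i3 (Eventually.of_forall n3)] at key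
  have e : (2⁻¹ : ℝ≥0∞) = ENNReal.ofReal 2⁻¹ := by
    rw [ENNReal.ofReal_inv_of_pos (by norm_num)]; simp
  rw [e, ← ENNReal.ofReal_mul (by norm_num), ENNReal.ofReal_le_ofReal_iff
    (mul_nonneg (by norm_num) (add_nonneg (integral_nonneg n1) (integral_nonneg n2)))] at key
  linarith

end Pool.Agent.P.MP_3d36e1_mp
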