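import Mathlib

set_option autoImplicit false
open MeasureTheory
open scoped ContDiff

namespace Pool.Agent.P.MP_3d36e1_mp

/-- three-dimensional Euclidean space -/
abbrev R3 := EuclideanSpace ℝ (Fin 3)

/-- `g` is the distributional gradient of `u` -/
def IsWeakGradient (u : R3 → ℝ) (g : R3 → R3) : Prop :=
  ∀ φ : R3 → ℝ, ContDiff ℝ ∞ φ → HasCompactSupport φ → ∀ v : R3,
    ∫ x, u x * fderiv ℝ φ x v = -∫ x, inner ℝ (g x) v * φ x

/-- admissible densities with total mass at most `lam`; `g` is the gradient of the square root -/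
structure Admissible (p lam : ℝ) (ρ : R3 → ℝ) (g : R3 → R3) : Prop where
  nonneg : ∀ x, 0 ≤ ρ x
  grad : IsWeakGradient (fun x => √(ρ x)) g
  grad_L2 : MemLp g 2
  L1 : Integrable ρ
  Lp : MemLp ρ (ENNReal.ofReal p)
  coulomb : Integrable (fun q : R3 × R3 => ρ q.1 * ρ q.2 / ‖q.1 - q.2‖)
  mass : ∫ x, ρ x ≤ lam

/-- the Thomas-Fermi-von Weizsacker energy of an atom of nuclear charge `z` -/
noncomputable def energy (A γ p z : ℝ) (ρ : R3 → ℝ) (g : R3 → R3) : ℝ :=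
  A * (∫ x, ‖g x‖ ^ 2) + γ / p * (∫ x, ρ x ^ p) - (∫ x, z / ‖x‖ * ρ x) +
    1 / 2 * ∫ q : R3 × R3, ρ q.1 * ρ q.2 / ‖q.1 - q.2‖

/-- `ρ` minimises the energy among the admissible densities of mass at most `lam` -/
def IsMinimiser (A γ p z lam : ℝ) (ρ : R3 → ℝ) : Prop :=
  ∃ g, Admissible p lam ρ g ∧
    ∀ ρ' g', Admissible p lam ρ' g' → energy A γ p z ρ g ≤ energy A γ p z ρ' g'

end Pool.Agent.P.MP_3d36e1_mp
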