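import Pool.Agent.P.MP_3d36e1_mp.Defs

set_option autoImplicit false
open MeasureTheory Set Filter
open scoped ContDiff Topology

namespace Pool.Agent.P.MP_3d36e1_mp

lemma inner_toLp {f g : R3 → ℝ} (hf : MemLp f 2) (hg : MemLp g 2) :
    inner ℝ (hf.toLp f) (hg.toLp g) = ∫ x, f x * g x := by
  rw [L2.inner_def]
  apply integral_congr_ae
  filter_upwards [hf.coeFn_toLp, hg.coeFn_toLp] with x h1 h2
  rw [h1, h2]; simp [mul_comm]

lemma norm_toLp_sq {f : R3 → ℝ} (hf : MemLp f 2) : ‖hf.toLp f‖ ^ 2 = ∫ x, f x ^ 2 := by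
  rw [← real_inner_self_eq_norm_sq, inner_toLp]; simp only [sq]

lemma norm_toLp_eq {f : R3 → ℝ} (hf : MemLp f 2) : ‖hf.toLp f‖ = √(∫ x, f x ^ 2) := by
  rw [← norm_toLp_sq hf, Real.sqrt_sq (norm_nonneg _)]

lemma cauchy_schwarz {f g : R3 → ℝ} (hf : MemLp f 2) (hg : MemLp g 2) :
    |∫ x, f x * g x| ≤ √(∫ x, f x ^ 2) * √(∫ x, g x ^ 2) := by
  rw [← inner_toLp hf hg, ← norm_toLp_eq hf, ← norm_toLp_eq hg]
  exact abs_real_inner_le_norm _ _

lemma int_mul {f g : R3 → ℝ} (hf : MemLp f 2) (hg : MemLp g 2) :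
    Integrable (fun x => f x * g x) := hf.integrable_mul hg

lemma test_memLp {φ : R3 → ℝ} (hφ : ContDiff ℝ ∞ φ) (hs : HasCompactSupport φ) : MemLp φ 2 :=
  hφ.continuous.memLp_of_hasCompactSupport hs

lemma L2_bound_of_test {w : R3 → ℝ} (hw : MemLp w 2) {C : ℝ} (hC : 0 ≤ C)
    (h : ∀ φ : R3 → ℝ, ContDiff ℝ ∞ φ → HasCompactSupport φ →
      |∫ x, w x * φ x| ≤ C * √(∫ x, φ x ^ 2)) : ∫ x, w x ^ 2 ≤ C ^ 2 := by
  have hd := Lp.dense_hasCompactSupport_contDiff (E := R3) (F := ℝ) (μ := volume) (p := 2)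
    (by norm_num)
  have hall : ∀ f : Lp ℝ 2 (volume : Measure R3), |inner ℝ (hw.toLp w) f| ≤ C * ‖f‖ := by
    intro f
    refine hd.induction (P := fun f => |inner ℝ (hw.toLp w) f| ≤ C * ‖f‖) ?_
      (isClosed_le (by fun_prop) (by fun_prop)) f
    rintro f ⟨φ, hfφ, hs, hφ⟩
    have hm := test_memLp hφ hs
    have : f = hm.toLp φ := by
      apply Lp.ext
      exact hfφ.trans hm.coeFn_toLp.symm
    rw [this, inner_toLp, norm_toLp_eq]
    exact h φ hφ hs
  have h1 := hall (hw.toLp w)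
  rw [real_inner_self_eq_norm_sq, abs_of_nonneg (by positivity)] at h1
  rw [← norm_toLp_sq hw]
  have h2 : ‖hw.toLp w‖ ≤ C := by
    by_contra hc
    push Not at hc
    nlinarith [norm_nonneg (hw.toLp w)]
  gcongr

lemma hasDerivAt_shift {u φ : R3 → ℝ} (hu : MemLp u 2) (hφ : ContDiff ℝ ∞ φ)
    (hs : HasCompactSupport φ) (v : R3) (t₀ : ℝ) :
    HasDerivAt (fun t : ℝ => ∫ x, u x * φ (x + t • v))
      (∫ x, u x * fderiv ℝ φ (x + t₀ • v) v) t₀ := by
  have hcf : Continuous (fderiv ℝ φ) := hφ.continuous_fderiv (by simp)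
  have hsf : HasCompactSupport (fderiv ℝ φ) := hs.fderiv ℝ
  obtain ⟨C, hC⟩ := hcf.bounded_above_of_compact_support hsf
  obtain ⟨R, hR, hRs⟩ := hsf.isCompact.isBounded.exists_pos_norm_lt
  have hloc : LocallyIntegrable u volume := hu.locallyIntegrable (by norm_num)
  set K : Set R3 := Metric.closedBall 0 (R + (|t₀| + 1) * ‖v‖) with hK
  have hKi : IntegrableOn u K := hloc.integrableOn_isCompact (isCompact_closedBall _ _)
  have hb : Integrable (fun x => ‖K.indicator u x‖ * (C * ‖v‖)) :=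
    ((integrable_indicator_iff Metric.isClosed_closedBall.measurableSet).2 hKi).norm.mul_const _
  have hm : ∀ t : ℝ, MemLp (fun x => φ (x + t • v)) 2 := fun t =>
    (test_memLp hφ hs).comp_measurePreserving (measurePreserving_add_right volume (t • v))
  refine (hasDerivAt_integral_of_dominated_loc_of_deriv_le (Metric.ball_mem_nhds t₀ one_pos)
    (F := fun (t : ℝ) x => u x * φ (x + t • v))
    (F' := fun (t : ℝ) x => u x * fderiv ℝ φ (x + t • v) v) ?_ ?_ ?_ ?_ hb ?_).2
  · exact Eventually.of_forall fun t => hu.1.mul (hm t).1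
  · exact hu.integrable_mul (hm t₀)
  · apply hu.1.mul
    apply Continuous.aestronglyMeasurable
    exact (hcf.comp (continuous_id.add continuous_const)).clm_apply continuous_const
  · refine Eventually.of_forall fun x t ht => ?_
    have hC0 : 0 ≤ C := (norm_nonneg _).trans (hC 0)
    by_cases hx : x ∈ K
    · rw [indicator_of_mem hx, norm_mul]
      gcongr
      exact (ContinuousLinearMap.le_opNorm _ _).trans (by gcongr; exact hC _)
    · have : fderiv ℝ φ (x + t • v) = 0 := by
        by_contra hne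
        have h1 := hRs _ (subset_tsupport _ hne)
        apply hx
        rw [hK, mem_closedBall_zero_iff]
        have h2 : ‖x‖ ≤ ‖x + t • v‖ + ‖t • v‖ := by
          simpa using norm_sub_le (x + t • v) (t • v)
        rw [norm_smul, Real.norm_eq_abs] at h2
        have h3 : |t| ≤ |t₀| + 1 := by
          have := mem_ball_iff_norm.1 ht
          rw [Real.norm_eq_abs] at this
          have h4 := abs_sub_abs_le_abs_sub t t₀
          linarith
        have h4 : |t| * ‖v‖ ≤ (|t₀| + 1) * ‖v‖ := by gcongr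
        linarith
      rw [this]; simp only [zero_apply, mul_zero, norm_zero]; positivity
  · refine Eventually.of_forall fun x t _ => ?_
    apply HasDerivAt.const_mul
    have h1 : HasDerivAt (fun t : ℝ => x + t • v) v t := by
      simpa using ((hasDerivAt_id t).smul_const v).const_add x
    exact (hφ.differentiable (by simp) (x + t • v)).hasFDerivAt.comp_hasDerivAt t h1

lemma shift_sub {u φ : R3 → ℝ} (hu : MemLp u 2) (hφ : MemLp φ 2) (y : R3) :
    (∫ x, u x * φ (x + y)) - ∫ x, u x * φ x = ∫ x, (u (x + -y) - u x) * φ x := by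
  have hm : MemLp (fun x => u (x + -y)) 2 :=
    hu.comp_measurePreserving (measurePreserving_add_right volume (-y))
  simp only [sub_mul]
  rw [integral_sub (int_mul hm hφ) (int_mul hu hφ)]
  congr 1
  rw [← integral_add_right_eq_self (fun x => u (x + -y) * φ x) y]
  simp

/-- translation estimate for functions with a square integrable weak gradient -/
theorem quot_le {u : R3 → ℝ} {g : R3 → R3} (h : IsWeakGradient u g) (hu : MemLp u 2)
    (hg : MemLp g 2) (v : R3) (t : ℝ) :
    ∫ x, (u (x + t • v) - u x) ^ 2 ≤ t ^ 2 * ∫ x, inner ℝ (g x) v ^ 2 := by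
  have hgv : MemLp (fun x => inner ℝ (g x) v) 2 := hg.inner_const v
  have hm : MemLp (fun x => u (x + t • v)) 2 :=
    hu.comp_measurePreserving (measurePreserving_add_right volume (t • v))
  have h0 : 0 ≤ ∫ x, inner ℝ (g x) v ^ 2 := integral_nonneg fun x => by positivity
  have := L2_bound_of_test (hm.sub hu) (C := |t| * √(∫ x, inner ℝ (g x) v ^ 2)) (by positivity) ?_
  · rw [mul_pow, sq_abs, Real.sq_sqrt h0] at this
    exact this
  intro φ hφ hs
  have hd := fun s => hasDerivAt_shift hu hφ hs v s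
  have hb : ∀ s : ℝ, ‖∫ x, u x * fderiv ℝ φ (x + s • v) v‖ ≤
      √(∫ x, inner ℝ (g x) v ^ 2) * √(∫ x, φ x ^ 2) := by
    intro s
    have h1 := h (fun x => φ (x + s • v)) (hφ.comp (contDiff_id.add contDiff_const))
      (hs.comp_homeomorph (Homeomorph.addRight (s • v))) v
    simp only [fderiv_comp_add_right] at h1
    rw [h1, norm_neg, Real.norm_eq_abs]
    have hm' : MemLp (fun x => φ (x + s • v)) 2 :=
      (test_memLp hφ hs).comp_measurePreserving (measurePreserving_add_right volume (s • v))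
    refine (cauchy_schwarz hgv hm').trans (le_of_eq ?_)
    rw [integral_add_right_eq_self (fun x => φ x ^ 2) (s • v)]
  have hmv := Convex.norm_image_sub_le_of_norm_hasDerivWithin_le
    (f := fun t : ℝ => ∫ x, u x * φ (x + t • v)) (s := univ) (x := 0) (y := -t)
    (fun s _ => (hd s).hasDerivWithinAt) (fun s _ => hb s) convex_univ (mem_univ _) (mem_univ _)
  simp only [zero_smul, add_zero, sub_zero, norm_neg] at hmv
  rw [shift_sub hu (test_memLp hφ hs), neg_smul, neg_neg] at hmv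
  simp only [Pi.sub_apply]
  rw [Real.norm_eq_abs, Real.norm_eq_abs] at hmv
  linarith

/-- the vector space of test functions -/
def testFns : Submodule ℝ (R3 → ℝ) where
  carrier := {φ | ContDiff ℝ ∞ φ ∧ HasCompactSupport φ}
  add_mem' := fun ha hb => ⟨ha.1.add hb.1, ha.2.add hb.2⟩
  zero_mem' := ⟨contDiff_const, HasCompactSupport.zero⟩
  smul_mem' := fun c _ ha => ⟨ha.1.const_smul c, ha.2.smul_left (f := fun _ => c)⟩

/-- inclusion of test functions in square integrable classes -/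
noncomputable def testToLp : testFns →ₗ[ℝ] Lp ℝ 2 (volume : Measure R3) where
  toFun φ := (test_memLp φ.2.1 φ.2.2).toLp φ.1
  map_add' φ ψ := MemLp.toLp_add (test_memLp φ.2.1 φ.2.2) (test_memLp ψ.2.1 ψ.2.2)
  map_smul' c φ := MemLp.toLp_const_smul c (test_memLp φ.2.1 φ.2.2)

lemma dense_testToLp : DenseRange testToLp := by
  have hd := Lp.dense_hasCompactSupport_contDiff (E := R3) (F := ℝ) (μ := volume) (p := 2)
    (by norm_num)
  refine hd.mono ?_
  rintro f ⟨φ, hfφ, hs, hφ⟩
  refine ⟨⟨φ, hφ, hs⟩, ?_⟩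
  apply Lp.ext
  exact (test_memLp hφ hs).coeFn_toLp.trans hfφ.symm

lemma deriv_test_memLp {φ : R3 → ℝ} (hφ : ContDiff ℝ ∞ φ) (hs : HasCompactSupport φ) (v : R3) :
    MemLp (fun x => fderiv ℝ φ x v) 2 :=
  ((hφ.continuous_fderiv (by simp)).clm_apply continuous_const).memLp_of_hasCompactSupport
    (hs.fderiv_apply ℝ v)

/-- the distributional directional derivative as a linear form on test functions -/
noncomputable def derivForm {u : R3 → ℝ} (hu : MemLp u 2) (v : R3) : testFns →ₗ[ℝ] ℝ where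
  toFun φ := -∫ x, u x * fderiv ℝ φ.1 x v
  map_add' φ ψ := by
    rw [← neg_add, ← integral_add (int_mul hu (deriv_test_memLp φ.2.1 φ.2.2 v))
      (int_mul hu (deriv_test_memLp ψ.2.1 ψ.2.2 v))]
    congr 2
    funext x
    rw [Submodule.coe_add, fderiv_add (φ.2.1.differentiable (by simp) x)
      (ψ.2.1.differentiable (by simp) x)]
    simp [mul_add]
  map_smul' c φ := by
    rw [RingHom.id_apply, smul_eq_mul, mul_neg, ← integral_const_mul]
    congr 2
    funext x
    rw [Submodule.coe_smul, fderiv_const_smul (φ.2.1.differentiable (by simp) x)]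
    simp; ring

theorem exists_dir_deriv {u : R3 → ℝ} (hu : MemLp u 2) (v : R3) {C : ℝ} (hC : 0 ≤ C)
    (h : ∀ t : ℝ, ∫ x, (u (x + t • v) - u x) ^ 2 ≤ t ^ 2 * C) :
    ∃ w : R3 → ℝ, MemLp w 2 ∧ ∫ x, w x ^ 2 ≤ C ∧
      ∀ φ : R3 → ℝ, ContDiff ℝ ∞ φ → HasCompactSupport φ →
        ∫ x, u x * fderiv ℝ φ x v = -∫ x, w x * φ x := by
  have hb : ∀ φ : testFns, ‖derivForm hu v φ‖ ≤ √C * ‖testToLp φ‖ := by
    intro φ
    have hm := test_memLp φ.2.1 φ.2.2
    have hd := hasDerivAt_shift hu φ.2.1 φ.2.2 v 0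
    simp only [zero_smul, add_zero] at hd
    suffices hl : ∀ t : ℝ, ‖(∫ x, u x * φ.1 (x + t • v)) - ∫ x, u x * φ.1 (x + (0 : ℝ) • v)‖ ≤
        √C * ‖testToLp φ‖ * ‖t - 0‖ by
      have := hd.le_of_lip' (C := √C * ‖testToLp φ‖) (by positivity) (Eventually.of_forall hl)
      simpa [derivForm] using this
    intro t
    simp only [zero_smul, add_zero, sub_zero]
    rw [shift_sub hu hm, ← neg_smul, Real.norm_eq_abs, Real.norm_eq_abs]
    have hm2 : MemLp (fun x => u (x + -t • v) - u x) 2 :=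
      (hu.comp_measurePreserving (measurePreserving_add_right volume (-t • v))).sub hu
    refine (cauchy_schwarz hm2 hm).trans ?_
    have e : ‖testToLp φ‖ = √(∫ x, φ.1 x ^ 2) := norm_toLp_eq hm
    rw [e]
    have h1 : √(∫ x, (u (x + -t • v) - u x) ^ 2) ≤ √C * |t| := by
      refine (Real.sqrt_le_sqrt (h (-t))).trans (le_of_eq ?_)
      rw [Real.sqrt_mul (by positivity), Real.sqrt_sq_eq_abs, abs_neg, mul_comm]
    calc _ ≤ √C * |t| * √(∫ x, φ.1 x ^ 2) := by gcongr
      _ = _ := by ring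
  set L := (derivForm hu v).extendOfNorm testToLp with hL
  have hLn : ‖L‖ ≤ √C := LinearMap.opNorm_extendOfNorm_le dense_testToLp (by positivity) hb
  set W := (InnerProductSpace.toDual ℝ (Lp ℝ 2 (volume : Measure R3))).symm L with hW
  have hWn : ‖W‖ ≤ √C := by rw [hW, LinearIsometryEquiv.norm_map]; exact hLn
  refine ⟨W, Lp.memLp W, ?_, ?_⟩
  · rw [← norm_toLp_sq (Lp.memLp W), Lp.toLp_coeFn, ← Real.sq_sqrt hC]
    gcongr
  · intro φ hφ hs
    have h1 : L (testToLp ⟨φ, hφ, hs⟩) = derivForm hu v ⟨φ, hφ, hs⟩ :=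
      LinearMap.extendOfNorm_eq dense_testToLp ⟨_, hb⟩ _
    have h2 : inner ℝ W (testToLp ⟨φ, hφ, hs⟩) = L (testToLp ⟨φ, hφ, hs⟩) := by
      rw [hW]; exact InnerProductSpace.toDual_symm_apply
    have h3 := inner_toLp (Lp.memLp W) (test_memLp hφ hs)
    rw [Lp.toLp_coeFn] at h3
    rw [← h3]
    have h4 : inner ℝ W ((test_memLp hφ hs).toLp φ) = -∫ x, u x * fderiv ℝ φ x v :=
      h2.trans h1
    rw [h4, neg_neg]

lemma kinetic_sum {g : R3 → R3} (hg : MemLp g 2) :
    ∫ x, ‖g x‖ ^ 2 = ∑ i, ∫ x, inner ℝ (g x) (EuclideanSpace.single i (1 : ℝ)) ^ 2 := by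
  rw [← integral_finsetSum _ (fun i _ => (hg.inner_const _).integrable_sq)]
  congr 1
  funext x
  rw [EuclideanSpace.real_norm_sq_eq]
  simp [EuclideanSpace.inner_single_right]

/-- bounded difference quotients give a square integrable weak gradient -/
theorem exists_weakGradient {u : R3 → ℝ} (hu : MemLp u 2) {C : Fin 3 → ℝ} (hC : ∀ i, 0 ≤ C i)
    (h : ∀ i, ∀ t : ℝ, ∫ x, (u (x + t • EuclideanSpace.single i (1 : ℝ)) - u x) ^ 2 ≤
      t ^ 2 * C i) :
    ∃ g : R3 → R3, IsWeakGradient u g ∧ MemLp g 2 ∧ ∫ x, ‖g x‖ ^ 2 ≤ ∑ i, C i := by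
  choose w hw1 hw2 hw3 using fun i => exists_dir_deriv hu _ (hC i) (h i)
  have hg : MemLp (fun x => ∑ i, w i x • EuclideanSpace.single i (1 : ℝ)) 2 := by
    apply memLp_finsetSum
    intro i _
    exact ((ContinuousLinearMap.id ℝ ℝ).smulRight (EuclideanSpace.single i (1 : ℝ))).comp_memLp'
      (hw1 i)
  have hin : ∀ x (v : R3), inner ℝ (∑ i, w i x • EuclideanSpace.single i (1 : ℝ)) v =
      ∑ i, v i * w i x := by
    intro x v
    rw [sum_inner]
    simp [inner_smul_left, EuclideanSpace.inner_single_left, mul_comm]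
  refine ⟨_, ?_, hg, ?_⟩
  · intro φ hφ hs v
    have hv : ∀ x, fderiv ℝ φ x v = ∑ i, v i * fderiv ℝ φ x (EuclideanSpace.single i (1 : ℝ)) := by
      intro x
      conv_lhs => rw [← (EuclideanSpace.basisFun (Fin 3) ℝ).sum_repr v]
      simp
    simp only [hv, hin, Finset.mul_sum, Finset.sum_mul]
    rw [integral_finsetSum, integral_finsetSum, ← Finset.sum_neg_distrib]
    · apply Finset.sum_congr rfl
      intro i _
      have := hw3 i φ hφ hs
      simp only [mul_assoc, mul_left_comm (u _) (v i)]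
      rw [integral_const_mul, integral_const_mul, this, mul_neg]
    · intro i _
      simp only [mul_assoc]
      exact ((hw1 i).integrable_mul (test_memLp hφ hs)).const_mul _
    · intro i _
      simp only [mul_left_comm (u _) (v i)]
      exact (hu.integrable_mul (deriv_test_memLp hφ hs _)).const_mul _
  · rw [kinetic_sum hg]
    apply Finset.sum_le_sum
    intro i _
    refine le_trans (le_of_eq ?_) (hw2 i)
    congr 1
    funext x
    rw [hin]
    simp

end Pool.Agent.P.MP_3d36e1_mp
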