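import Pool.Agent.P.MP_3d36e1_mp.Main
import Pool.Agent.P.MP_3d36e1_mp.Quot
import Pool.Agent.P.MP_3d36e1_mp.Coul

set_option autoImplicit false
open MeasureTheory Set Filter
open scoped ContDiff Topology ENNReal

namespace Pool.Agent.P.MP_3d36e1_mp

lemma memLp_sqrt {ρ : R3 → ℝ} (h0 : ∀ x, 0 ≤ ρ x) (h1 : Integrable ρ) :
    MemLp (fun x => √(ρ x)) 2 := by
  rw [memLp_two_iff_integrable_sq
    (Real.continuous_sqrt.comp_aestronglyMeasurable h1.aestronglyMeasurable)]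
  simpa only [Real.sq_sqrt (h0 _)] using h1

lemma memLp_of_rpow {p : ℝ} (hp : 0 < p) {ρ : R3 → ℝ} (h0 : ∀ x, 0 ≤ ρ x)
    (hm : AEStronglyMeasurable ρ volume) (h : Integrable (fun x => ρ x ^ p)) :
    MemLp ρ (ENNReal.ofReal p) := by
  rw [← integrable_norm_rpow_iff hm (by simpa using hp) ENNReal.ofReal_ne_top]
  simpa [ENNReal.toReal_ofReal hp.le, abs_of_nonneg (h0 _)] using h

lemma sqrt_mid (a b c d : ℝ) (ha : 0 ≤ a) (hb : 0 ≤ b) (hc : 0 ≤ c) (hd : 0 ≤ d) :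
    (√((a + c) / 2) - √((b + d) / 2)) ^ 2 ≤ ((√a - √b) ^ 2 + (√c - √d) ^ 2) / 2 := by
  have e1 := Real.sq_sqrt ha
  have e2 := Real.sq_sqrt hb
  have e3 := Real.sq_sqrt hc
  have e4 := Real.sq_sqrt hd
  have e5 := Real.sq_sqrt (show 0 ≤ (a + c) / 2 by positivity)
  have e6 := Real.sq_sqrt (show 0 ≤ (b + d) / 2 by positivity)
  have key : (√a * √b + √c * √d) / 2 ≤ √((a + c) / 2) * √((b + d) / 2) := by
    apply le_of_sq_le_sq _ (by positivity)
    rw [mul_pow, e5, e6]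
    nlinarith [sq_nonneg (√a * √d - √c * √b)]
  nlinarith

/-- directional pieces of the kinetic energy -/
noncomputable def kin (g : R3 → R3) (i : Fin 3) : ℝ :=
  ∫ x, inner ℝ (g x) (EuclideanSpace.single i (1 : ℝ)) ^ 2

lemma kin_nonneg (g : R3 → R3) (i : Fin 3) : 0 ≤ kin g i := integral_nonneg fun x => by positivity

lemma shift_sq_integrable {u : R3 → ℝ} (hu : MemLp u 2) (y : R3) :
    Integrable (fun x => (u (x + y) - u x) ^ 2) :=
  ((hu.comp_measurePreserving (measurePreserving_add_right volume y)).sub hu).integrable_sq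

/-- convexity defect of the power function -/
noncomputable def defect (p a b : ℝ) : ℝ := (a ^ p + b ^ p) / 2 - ((a + b) / 2) ^ p

lemma defect_nonneg {p : ℝ} (hp : 1 ≤ p) {a b : ℝ} (ha : 0 ≤ a) (hb : 0 ≤ b) :
    0 ≤ defect p a b := by
  have := (convexOn_rpow hp).2 (show a ∈ Ici (0 : ℝ) from ha) (show b ∈ Ici (0 : ℝ) from hb)
    (show (0 : ℝ) ≤ 1 / 2 by norm_num) (show (0 : ℝ) ≤ 1 / 2 by norm_num) (by norm_num)
  simp only [smul_eq_mul] at this
  rw [show 1 / 2 * a + 1 / 2 * b = (a + b) / 2 by ring] at this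
  unfold defect; linarith

lemma defect_pos {p : ℝ} (hp : 1 < p) {a b : ℝ} (ha : 0 ≤ a) (hb : 0 ≤ b) (hab : a ≠ b) :
    0 < defect p a b := by
  have := (strictConvexOn_rpow hp).2 (show a ∈ Ici (0 : ℝ) from ha) (show b ∈ Ici (0 : ℝ) from hb)
    hab (show (0 : ℝ) < 1 / 2 by norm_num) (show (0 : ℝ) < 1 / 2 by norm_num) (by norm_num)
  simp only [smul_eq_mul] at this
  rw [show 1 / 2 * a + 1 / 2 * b = (a + b) / 2 by ring] at this
  unfold defect; linarith

theorem midpoint_energy {A γ p z lam : ℝ} (hp : 3 / 2 < p) (hA : 0 < A) (hz : 0 < z)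
    {ρ₁ ρ₂ : R3 → ℝ} {g₁ g₂ : R3 → R3} (h₁ : Admissible p lam ρ₁ g₁) (h₂ : Admissible p lam ρ₂ g₂) :
    Integrable (fun x => defect p (ρ₁ x) (ρ₂ x)) ∧
    ∃ g, Admissible p lam (fun x => (ρ₁ x + ρ₂ x) / 2) g ∧
      energy A γ p z (fun x => (ρ₁ x + ρ₂ x) / 2) g + γ / p * ∫ x, defect p (ρ₁ x) (ρ₂ x) ≤
        (energy A γ p z ρ₁ g₁ + energy A γ p z ρ₂ g₂) / 2 := by
  have hp0 : 0 < p := by linarith
  have h0 : ∀ x, 0 ≤ (ρ₁ x + ρ₂ x) / 2 := fun x => by
    have := h₁.nonneg x; have := h₂.nonneg x; positivity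
  have hL1 : Integrable (fun x => (ρ₁ x + ρ₂ x) / 2) := (h₁.L1.add h₂.L1).div_const 2
  have hLp : MemLp (fun x => (ρ₁ x + ρ₂ x) / 2) (ENNReal.ofReal p) := by
    simp only [div_eq_mul_inv]
    exact (h₁.Lp.add h₂.Lp).mul_const _
  have u1 := memLp_sqrt h₁.nonneg h₁.L1
  have u2 := memLp_sqrt h₂.nonneg h₂.L1
  have u3 := memLp_sqrt h0 hL1
  obtain ⟨g, hg1, hg2, hg3⟩ := exists_weakGradient u3 (C := fun i => (kin g₁ i + kin g₂ i) / 2)
    (fun i => by have := kin_nonneg g₁ i; have := kin_nonneg g₂ i; positivity) (by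
      intro i t
      have q1 := quot_le h₁.grad u1 h₁.grad_L2 (EuclideanSpace.single i (1 : ℝ)) t
      have q2 := quot_le h₂.grad u2 h₂.grad_L2 (EuclideanSpace.single i (1 : ℝ)) t
      have i1 := shift_sq_integrable u1 (t • EuclideanSpace.single i (1 : ℝ))
      have i2 := shift_sq_integrable u2 (t • EuclideanSpace.single i (1 : ℝ))
      have i3 := shift_sq_integrable u3 (t • EuclideanSpace.single i (1 : ℝ))
      have := integral_mono i3 ((i1.add i2).div_const 2) (fun x =>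
        sqrt_mid _ _ _ _ (h₁.nonneg _) (h₁.nonneg _) (h₂.nonneg _) (h₂.nonneg _))
      simp only [Pi.add_apply] at this
      rw [integral_div, integral_add i1 i2] at this
      unfold kin
      linarith)
  obtain ⟨c1, c2⟩ := coulomb_mid h₁.nonneg h₂.nonneg h₁.L1.aestronglyMeasurable
    h₂.L1.aestronglyMeasurable h₁.coulomb h₂.coulomb
  have hadm : Admissible p lam (fun x => (ρ₁ x + ρ₂ x) / 2) g := by
    refine ⟨h0, hg1, hg2, hL1, hLp, c1, ?_⟩
    rw [integral_div, integral_add h₁.L1 h₂.L1]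
    linarith [h₁.mass, h₂.mass]
  have p1 := h₁.integrable_rpow hp0
  have p2 := h₂.integrable_rpow hp0
  have p3 := hadm.integrable_rpow hp0
  have p12 : Integrable (fun x => (ρ₁ x ^ p + ρ₂ x ^ p) / 2) := (p1.add p2).div_const 2
  refine ⟨p12.sub p3, g, hadm, ?_⟩
  have v1 := integrable_V hp hz h₁.nonneg h₁.L1 p1
  have v2 := integrable_V hp hz h₂.nonneg h₂.L1 p2
  have e1 : ∫ x, defect p (ρ₁ x) (ρ₂ x) =
      ((∫ x, ρ₁ x ^ p) + ∫ x, ρ₂ x ^ p) / 2 - ∫ x, ((ρ₁ x + ρ₂ x) / 2) ^ p := by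
    unfold defect
    rw [integral_sub p12 p3, integral_div, integral_add p1 p2]
  have e2 : ∫ x, z / ‖x‖ * ((ρ₁ x + ρ₂ x) / 2) =
      ((∫ x, z / ‖x‖ * ρ₁ x) + ∫ x, z / ‖x‖ * ρ₂ x) / 2 := by
    rw [← integral_add v1 v2, ← integral_div]
    congr 1; funext x; ring
  have e3 : ∑ i, (kin g₁ i + kin g₂ i) / 2 = ((∫ x, ‖g₁ x‖ ^ 2) + ∫ x, ‖g₂ x‖ ^ 2) / 2 := by
    rw [kinetic_sum h₁.grad_L2, kinetic_sum h₂.grad_L2, ← Finset.sum_add_distrib, Finset.sum_div]
    rfl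
  rw [e3] at hg3
  unfold energy
  rw [e1, e2]
  have := mul_le_mul_of_nonneg_left hg3 hA.le
  linarith

lemma fatou_real {α : Type*} [MeasurableSpace α] {μ : Measure α} {f : ℕ → α → ℝ} {F : α → ℝ}
    (h0 : ∀ k x, 0 ≤ f k x) (hi : ∀ k, Integrable (f k) μ)
    (hl : ∀ᵐ x ∂μ, Tendsto (fun k => f k x) atTop (𝓝 (F x))) {c : ℕ → ℝ} {L : ℝ}
    (hc : ∀ k, ∫ x, f k x ∂μ ≤ c k) (hL : Tendsto c atTop (𝓝 L)) :
    Integrable F μ ∧ ∫ x, F x ∂μ ≤ L := by
  have hm : AEStronglyMeasurable F μ :=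
    aestronglyMeasurable_of_tendsto_ae atTop (fun k => (hi k).aestronglyMeasurable) hl
  have hF0 : 0 ≤ᵐ[μ] F := by
    filter_upwards [hl] with x hx
    exact ge_of_tendsto' hx (fun k => h0 k x)
  have hL0 : 0 ≤ L := ge_of_tendsto' hL (fun k => (integral_nonneg (h0 k)).trans (hc k))
  have key : ∫⁻ x, ENNReal.ofReal (F x) ∂μ ≤ ENNReal.ofReal L := by
    have h1 := lintegral_liminf_le' (μ := μ) (f := fun k x => ENNReal.ofReal (f k x)) (u := atTop)
      (fun k => (hi k).aestronglyMeasurable.aemeasurable.ennreal_ofReal)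
    have h2 : ∫⁻ x, ENNReal.ofReal (F x) ∂μ =
        ∫⁻ x, liminf (fun k => ENNReal.ofReal (f k x)) atTop ∂μ := by
      apply lintegral_congr_ae
      filter_upwards [hl] with x hx
      exact ((ENNReal.tendsto_ofReal hx).liminf_eq).symm
    rw [h2]
    refine h1.trans ?_
    rw [← (ENNReal.tendsto_ofReal hL).liminf_eq]
    apply liminf_le_liminf (Eventually.of_forall fun k => ?_)
    rw [← ofReal_integral_eq_lintegral_ofReal (hi k) (Eventually.of_forall (h0 k))]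
    exact ENNReal.ofReal_le_ofReal (hc k)
  have hF : Integrable F μ := by
    refine ⟨hm, ?_⟩
    rw [hasFiniteIntegral_iff_ofReal hF0]
    exact lt_of_le_of_lt key ENNReal.ofReal_lt_top
  refine ⟨hF, ?_⟩
  rwa [← ofReal_integral_eq_lintegral_ofReal hF hF0, ENNReal.ofReal_le_ofReal_iff hL0] at key

lemma exists_est {p z c μ : ℝ} (hp : 3 / 2 < p) (hz : 0 < z) (hc : 0 < c) (hμ : 0 < μ) :
    ∃ e : R3 → ℝ, Integrable e ∧ (∀ x, 0 ≤ e x) ∧
      ∀ x (r : ℝ), 0 ≤ r → (z / ‖x‖ - μ) * r ≤ c / p * r ^ p + e x := by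
  have hp1 : 1 < p := by linarith
  have hq := conj_pos hp1
  refine ⟨fun x => c * ((max (z / c / ‖x‖ - μ / c) 0) ^ (p / (p - 1)) / (p / (p - 1))),
    ((integrable_estar (by positivity) (by positivity) hq (conj_lt_three hp)).div_const _).const_mul _,
    fun x => ?_, fun x r hr => ?_⟩
  · have : 0 ≤ max (z / c / ‖x‖ - μ / c) 0 := le_max_right _ _
    positivity
  · have h := mul_le_mul_of_nonneg_left (young hp1 r (z / c / ‖x‖ - μ / c) hr) hc.le
    have e : c * ((z / c / ‖x‖ - μ / c) * r) = (z / ‖x‖ - μ) * r := by field_simp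
    rw [e] at h
    refine h.trans (le_of_eq ?_)
    ring

/-- the local (Thomas-Fermi) part of the energy -/
noncomputable def tf (γ p z : ℝ) (ρ : R3 → ℝ) : ℝ :=
  γ / p * (∫ x, ρ x ^ p) - ∫ x, z / ‖x‖ * ρ x

lemma tf_integral {γ p z μ : ℝ} (hp : 3 / 2 < p) (hz : 0 < z) {ρ e : R3 → ℝ} (h0 : ∀ x, 0 ≤ ρ x)
    (h1 : Integrable ρ) (hp' : Integrable (fun x => ρ x ^ p)) (he : Integrable e) :
    Integrable (fun x => γ / p * ρ x ^ p + e x - (z / ‖x‖ - μ) * ρ x) ∧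
    ∫ x, (γ / p * ρ x ^ p + e x - (z / ‖x‖ - μ) * ρ x) =
      tf γ p z ρ + μ * (∫ x, ρ x) + ∫ x, e x := by
  have v := integrable_V hp hz h0 h1 hp'
  have i1 : Integrable (fun x => γ / p * ρ x ^ p) := hp'.const_mul _
  have i2 : Integrable (fun x => γ / p * ρ x ^ p - z / ‖x‖ * ρ x) := i1.sub v
  have i3 : Integrable (fun x => μ * ρ x) := h1.const_mul _
  have i4 : Integrable (fun x => γ / p * ρ x ^ p - z / ‖x‖ * ρ x + μ * ρ x) := i2.add i3
  have e1 : (fun x => γ / p * ρ x ^ p + e x - (z / ‖x‖ - μ) * ρ x) =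
      fun x => γ / p * ρ x ^ p - z / ‖x‖ * ρ x + μ * ρ x + e x := by
    funext x; ring
  rw [e1]
  refine ⟨i4.add he, ?_⟩
  rw [integral_add i4 he, integral_add i2 i3, integral_sub i1 v, integral_const_mul,
    integral_const_mul]
  rfl

lemma tf_lower {γ p z lam : ℝ} (hp : 3 / 2 < p) (hγ : 0 < γ) (hz : 0 < z) :
    ∃ B : ℝ, ∀ ρ g, Admissible p lam ρ g → -B ≤ tf γ p z ρ := by
  obtain ⟨e, he, he0, hy⟩ := exists_est hp hz hγ one_pos
  refine ⟨lam + ∫ x, e x, fun ρ g h => ?_⟩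
  obtain ⟨-, h2⟩ := tf_integral (γ := γ) (μ := 1) hp hz h.nonneg h.L1
    (h.integrable_rpow (by linarith)) he
  have : 0 ≤ ∫ x, (γ / p * ρ x ^ p + e x - (z / ‖x‖ - 1) * ρ x) :=
    integral_nonneg fun x => sub_nonneg.2 (hy x _ (h.nonneg x))
  linarith [h.mass]

lemma energy_eq {A γ p z lam : ℝ} {ρ : R3 → ℝ} {g : R3 → R3} (h : Admissible p lam ρ g) :
    energy A γ p z ρ g = A * (∑ i, kin g i) + tf γ p z ρ +
      1 / 2 * ∫ q : R3 × R3, ρ q.1 * ρ q.2 / ‖q.1 - q.2‖ := by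
  unfold energy tf
  rw [kinetic_sum h.grad_L2]
  unfold kin
  ring

theorem limit_admissible {A γ p z lam m : ℝ} (hp : 3 / 2 < p) (hA : 0 < A) (hγ : 0 < γ)
    (hz : 0 < z) {ρ : ℕ → R3 → ℝ} {g : ℕ → R3 → R3} (h : ∀ k, Admissible p lam (ρ k) (g k))
    {ε : ℕ → ℝ} (hε : Tendsto ε atTop (𝓝 0)) (hE : ∀ k, energy A γ p z (ρ k) (g k) ≤ m + ε k)
    {ρ' : R3 → ℝ} (h0 : ∀ x, 0 ≤ ρ' x)
    (hl : ∀ᵐ x, Tendsto (fun k => ρ k x) atTop (𝓝 (ρ' x))) :
    ∃ g', Admissible p lam ρ' g' ∧ energy A γ p z ρ' g' ≤ m := by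
  have hp0 : 0 < p := by linarith
  obtain ⟨B, hB⟩ := tf_lower (lam := lam) hp hγ hz
  obtain ⟨E, hEb⟩ := hε.bddAbove_range
  have hEb' : ∀ k, ε k ≤ E := fun k => hEb ⟨k, rfl⟩
  set D : ℕ → ℝ := fun k => ∫ q : R3 × R3, ρ k q.1 * ρ k q.2 / ‖q.1 - q.2‖ with hD
  have hD0 : ∀ k, 0 ≤ D k := fun k => (h k).coulomb_nonneg
  have hEk : ∀ k, A * (∑ i, kin (g k) i) + tf γ p z (ρ k) + 1 / 2 * D k ≤ m + ε k := fun k => by
    have := hE k; rwa [energy_eq (h k)] at this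
  have hs0 : ∀ k, 0 ≤ ∑ i, kin (g k) i := fun k => Finset.sum_nonneg fun i _ => kin_nonneg _ _
  let a : ℕ → (Fin 3 → ℝ) × ℝ × ℝ := fun k => (kin (g k), tf γ p z (ρ k), D k)
  have hcomp : IsCompact (Icc (0 : Fin 3 → ℝ) (fun _ => (m + E + B) / A) ×ˢ
      (Icc (-B) (m + E) ×ˢ Icc (0 : ℝ) (2 * (m + E + B)))) :=
    isCompact_Icc.prod (isCompact_Icc.prod isCompact_Icc)
  obtain ⟨⟨K, T, D'⟩, -, φ, hφ, hlim⟩ := hcomp.tendsto_subseq (x := a) (fun k => by
    have b1 := hB _ _ (h k)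
    have b2 := hEk k
    have b3 := hEb' k
    have b4 := hD0 k
    have b5 := mul_nonneg hA.le (hs0 k)
    refine ⟨⟨fun i => kin_nonneg _ _, fun i => ?_⟩, ⟨b1, by simp only [a]; linarith⟩,
      ⟨b4, by simp only [a]; linarith⟩⟩
    have : kin (g k) i ≤ ∑ j, kin (g k) j :=
      Finset.single_le_sum (fun j _ => kin_nonneg _ j) (Finset.mem_univ i)
    simp only [a]
    rw [le_div_iff₀ hA]
    nlinarith)
  have lK : ∀ i, Tendsto (fun k => kin (g (φ k)) i) atTop (𝓝 (K i)) := fun i =>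
    ((continuous_apply i).tendsto _).comp ((continuous_fst.tendsto _).comp hlim)
  have lT : Tendsto (fun k => tf γ p z (ρ (φ k))) atTop (𝓝 T) :=
    (continuous_snd.fst.tendsto _).comp hlim
  have lD : Tendsto (fun k => D (φ k)) atTop (𝓝 D') :=
    (continuous_snd.snd.tendsto _).comp hlim
  have hsum : A * (∑ i, K i) + T + 1 / 2 * D' ≤ m := by
    have l1 : Tendsto (fun k => A * (∑ i, kin (g (φ k)) i) + tf γ p z (ρ (φ k)) + 1 / 2 * D (φ k))
        atTop (𝓝 (A * (∑ i, K i) + T + 1 / 2 * D')) :=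
      (((tendsto_finsetSum _ fun i _ => lK i).const_mul A).add lT).add (lD.const_mul _)
    have l2 : Tendsto (fun k => m + ε (φ k)) atTop (𝓝 (m + 0)) :=
      (hε.comp hφ.tendsto_atTop).const_add m
    rw [add_zero] at l2
    exact le_of_tendsto_of_tendsto' l1 l2 fun k => hEk _
  have hl' : ∀ᵐ x, Tendsto (fun k => ρ (φ k) x) atTop (𝓝 (ρ' x)) := by
    filter_upwards [hl] with x hx using hx.comp hφ.tendsto_atTop
  obtain ⟨hL1, hmass⟩ := fatou_real (fun k => (h (φ k)).nonneg) (fun k => (h (φ k)).L1) hl'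
    (fun k => (h (φ k)).mass) tendsto_const_nhds
  have hlam : 0 ≤ lam := (integral_nonneg h0).trans hmass
  obtain ⟨hC, hCle⟩ := fatou_real (μ := (volume : Measure (R3 × R3)))
    (f := fun k q => ρ (φ k) q.1 * ρ (φ k) q.2 / ‖q.1 - q.2‖)
    (F := fun q => ρ' q.1 * ρ' q.2 / ‖q.1 - q.2‖)
    (fun k q => div_nonneg (mul_nonneg ((h _).nonneg _) ((h _).nonneg _)) (norm_nonneg _))
    (fun k => (h (φ k)).coulomb) (by
      filter_upwards [ae_prod_both hl'] with q hq using (hq.1.mul hq.2).div_const _)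
    (fun k => le_rfl) lD
  have hu := memLp_sqrt h0 hL1
  obtain ⟨g', hg1, hg2, hg3⟩ := exists_weakGradient hu (C := K)
    (fun i => ge_of_tendsto' (lK i) fun k => kin_nonneg _ _) (by
      intro i t
      refine (fatou_real (μ := (volume : Measure R3))
        (f := fun k x => (√(ρ (φ k) (x + t • EuclideanSpace.single i (1 : ℝ))) - √(ρ (φ k) x)) ^ 2)
        (fun k x => by positivity)
        (fun k => shift_sq_integrable (memLp_sqrt (h _).nonneg (h _).L1) _) ?_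
        (fun k => quot_le (h _).grad (memLp_sqrt (h _).nonneg (h _).L1) (h _).grad_L2 _ t)
        ((lK i).const_mul _)).2
      filter_upwards [hl', (measurePreserving_add_right volume
        (t • EuclideanSpace.single i (1 : ℝ))).quasiMeasurePreserving.ae hl'] with x h1 h2
      exact (h2.sqrt.sub h1.sqrt).pow 2)
  have hfat : ∀ μ : ℝ, 0 < μ → ∃ e : R3 → ℝ, Integrable e ∧ (∀ x, 0 ≤ e x) ∧
      Integrable (fun x => γ / p * ρ' x ^ p + e x - (z / ‖x‖ - μ) * ρ' x) ∧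
      ∫ x, (γ / p * ρ' x ^ p + e x - (z / ‖x‖ - μ) * ρ' x) ≤ T + μ * lam + ∫ x, e x := by
    intro μ hμ
    obtain ⟨e, he, he0, hy⟩ := exists_est hp hz hγ hμ
    refine ⟨e, he, he0, fatou_real (μ := (volume : Measure R3))
      (f := fun k x => γ / p * ρ (φ k) x ^ p + e x - (z / ‖x‖ - μ) * ρ (φ k) x)
      (c := fun k => tf γ p z (ρ (φ k)) + μ * lam + ∫ x, e x)
      (fun k x => sub_nonneg.2 (hy x _ ((h _).nonneg x)))
      (fun k => (tf_integral hp hz (h _).nonneg (h _).L1 ((h _).integrable_rpow hp0) he).1)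
      ?_ (fun k => ?_) ((lT.add_const _).add_const _)⟩
    · filter_upwards [hl'] with x hx
      exact (((hx.rpow_const (Or.inr hp0.le)).const_mul _).add_const _).sub (hx.const_mul _)
    · rw [(tf_integral hp hz (h _).nonneg (h _).L1 ((h _).integrable_rpow hp0) he).2]
      have := mul_le_mul_of_nonneg_left (h (φ k)).mass hμ.le
      linarith
  have hpow : Integrable (fun x => ρ' x ^ p) := by
    obtain ⟨e, he, he0, hi, -⟩ := hfat 1 one_pos
    obtain ⟨e', he', he0', hy⟩ := exists_est hp hz (half_pos hγ) one_pos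
    refine (((hi.add he').sub he).const_mul (2 * p / γ)).mono' ?_ (Eventually.of_forall fun x => ?_)
    · exact (Real.continuous_rpow_const hp0.le).comp_aestronglyMeasurable hL1.aestronglyMeasurable
    · rw [Real.norm_of_nonneg (Real.rpow_nonneg (h0 x) _)]
      have := hy x _ (h0 x)
      simp only [Pi.sub_apply, Pi.add_apply]
      have e1 : ρ' x ^ p = 2 * p / γ * (γ / 2 / p * ρ' x ^ p) := by field_simp
      have e2 : γ / p * ρ' x ^ p = 2 * (γ / 2 / p * ρ' x ^ p) := by ring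
      rw [e1]
      apply mul_le_mul_of_nonneg_left _ (by positivity)
      rw [← e1]
      linarith
  have htf : tf γ p z ρ' ≤ T := by
    apply le_of_forall_pos_le_add
    intro δ hδ
    obtain ⟨e, he, he0, -, hle⟩ := hfat (δ / (lam + 1)) (by positivity)
    rw [(tf_integral hp hz h0 hL1 hpow he).2] at hle
    have h1 : 0 ≤ δ / (lam + 1) * ∫ x, ρ' x := mul_nonneg (by positivity) (integral_nonneg h0)
    have h2 : δ / (lam + 1) * lam ≤ δ := by
      rw [div_mul_eq_mul_div, div_le_iff₀ (by positivity)]; nlinarith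
    linarith
  have hadm : Admissible p lam ρ' g' :=
    ⟨h0, hg1, hg2, hL1, memLp_of_rpow hp0 h0 hL1.aestronglyMeasurable hpow, hC, hmass⟩
  refine ⟨g', hadm, ?_⟩
  have := mul_le_mul_of_nonneg_left hg3 hA.le
  unfold tf at htf
  unfold energy
  linarith

theorem close_in_measure {A γ p z lam m : ℝ} (hp : 3 / 2 < p) (hA : 0 < A) (hγ : 0 < γ)
    (hz : 0 < z) (hlam : 0 < lam)
    (hm : ∀ ρ g, Admissible p lam ρ g → m ≤ energy A γ p z ρ g) {η : ℝ} (hη : 0 < η) :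
    ∃ ε : ℝ, 0 < ε ∧ ∀ ρ₁ g₁ ρ₂ g₂, Admissible p lam ρ₁ g₁ → Admissible p lam ρ₂ g₂ →
      energy A γ p z ρ₁ g₁ ≤ m + ε → energy A γ p z ρ₂ g₂ ≤ m + ε →
      volume {x | η ≤ |ρ₁ x - ρ₂ x|} ≤ ENNReal.ofReal η := by
  have hp0 : 0 < p := by linarith
  have hp1 : 1 < p := by linarith
  set M := 4 * lam / η with hM
  have hM0 : 0 < M := by positivity
  have hS : IsCompact ((Icc (0 : ℝ) M ×ˢ Icc (0 : ℝ) M) ∩ {q : ℝ × ℝ | η ≤ |q.1 - q.2|}) :=
    (isCompact_Icc.prod isCompact_Icc).inter_right (isClosed_le continuous_const (by fun_prop))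
  have hcont : Continuous (fun q : ℝ × ℝ => defect p q.1 q.2) := by
    have := Real.continuous_rpow_const hp0.le
    unfold defect
    fun_prop (disch := intro _; exact Or.inr hp0.le)
  obtain ⟨c, hc, hcS⟩ := hS.exists_forall_le' hcont.continuousOn (a := 0) (by
    rintro ⟨a, b⟩ ⟨⟨ha, hb⟩, hab⟩
    refine defect_pos hp1 ha.1 hb.1 ?_
    intro hab'
    simp only [mem_ofPred_eq] at hab hab'
    rw [hab', sub_self, abs_zero] at hab
    linarith)
  refine ⟨γ / p * (c * η / 2), by positivity, ?_⟩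
  intro ρ₁ g₁ ρ₂ g₂ h₁ h₂ e₁ e₂
  obtain ⟨hi, g, hg, hle⟩ := midpoint_energy (A := A) (γ := γ) hp hA hz h₁ h₂
  have hJ : ∫ x, defect p (ρ₁ x) (ρ₂ x) ≤ c * η / 2 := by
    have := hm _ _ hg
    apply le_of_mul_le_mul_left _ (show 0 < γ / p by positivity)
    linarith
  set F : R3 → ℝ := fun x => ρ₁ x / M + ρ₂ x / M + defect p (ρ₁ x) (ρ₂ x) / c with hF
  have i1 : Integrable (fun x => ρ₁ x / M) := h₁.L1.div_const M
  have i2 : Integrable (fun x => ρ₂ x / M) := h₂.L1.div_const M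
  have i12 : Integrable (fun x => ρ₁ x / M + ρ₂ x / M) := i1.add i2
  have i3 : Integrable (fun x => defect p (ρ₁ x) (ρ₂ x) / c) := hi.div_const c
  have hFi : Integrable F := i12.add i3
  have hF0 : ∀ x, 0 ≤ F x := fun x => by
    have := h₁.nonneg x; have := h₂.nonneg x
    have := defect_nonneg hp1.le (h₁.nonneg x) (h₂.nonneg x)
    simp only [hF]; positivity
  have hFint : ∫ x, F x ≤ η := by
    simp only [hF]
    rw [integral_add i12 i3, integral_add i1 i2, integral_div, integral_div, integral_div]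
    have a1 : (∫ x, ρ₁ x) / M ≤ η / 4 := by
      rw [div_le_iff₀ hM0, hM]
      have : η / 4 * (4 * lam / η) = lam := by field_simp
      rw [this]; exact h₁.mass
    have a2 : (∫ x, ρ₂ x) / M ≤ η / 4 := by
      rw [div_le_iff₀ hM0, hM]
      have : η / 4 * (4 * lam / η) = lam := by field_simp
      rw [this]; exact h₂.mass
    have a3 : (∫ x, defect p (ρ₁ x) (ρ₂ x)) / c ≤ η / 2 := by
      rw [div_le_iff₀ hc]; linarith
    linarith
  have hsub : {x | η ≤ |ρ₁ x - ρ₂ x|} ⊆ {x | 1 ≤ ENNReal.ofReal (F x)} := by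
    intro x hx
    simp only [mem_ofPred_eq, ENNReal.one_le_ofReal, hF]
    have n1 : 0 ≤ ρ₁ x / M := div_nonneg (h₁.nonneg x) hM0.le
    have n2 : 0 ≤ ρ₂ x / M := div_nonneg (h₂.nonneg x) hM0.le
    have n3 : 0 ≤ defect p (ρ₁ x) (ρ₂ x) / c :=
      div_nonneg (defect_nonneg hp1.le (h₁.nonneg x) (h₂.nonneg x)) hc.le
    by_cases c1 : ρ₁ x ≤ M
    · by_cases c2 : ρ₂ x ≤ M
      · have := hcS (ρ₁ x, ρ₂ x) ⟨⟨⟨h₁.nonneg x, c1⟩, ⟨h₂.nonneg x, c2⟩⟩, hx⟩
        have : 1 ≤ defect p (ρ₁ x) (ρ₂ x) / c := by rw [le_div_iff₀ hc]; linarith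
        linarith
      · have : 1 ≤ ρ₂ x / M := by rw [le_div_iff₀ hM0]; linarith
        linarith
    · have : 1 ≤ ρ₁ x / M := by rw [le_div_iff₀ hM0]; linarith
      linarith
  calc volume {x | η ≤ |ρ₁ x - ρ₂ x|} ≤ volume {x | 1 ≤ ENNReal.ofReal (F x)} := measure_mono hsub
    _ ≤ ∫⁻ x, ENNReal.ofReal (F x) := by
        have := mul_meas_ge_le_lintegral₀
          (hFi.aestronglyMeasurable.aemeasurable.ennreal_ofReal) 1
        rwa [one_mul] at this
    _ = ENNReal.ofReal (∫ x, F x) :=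
        (ofReal_integral_eq_lintegral_ofReal hFi (Eventually.of_forall hF0)).symm
    _ ≤ ENNReal.ofReal η := ENNReal.ofReal_le_ofReal hFint

theorem exists_minimiser {A γ p z lam : ℝ} (hp : 3 / 2 < p) (hA : 0 < A) (hγ : 0 < γ)
    (hz : 0 < z) (hlam : 0 < lam) : ∃ ρ, IsMinimiser A γ p z lam ρ := by
  obtain ⟨B, hB⟩ := tf_lower (lam := lam) hp hγ hz
  set S : Set ℝ := {E | ∃ ρ g, Admissible p lam ρ g ∧ E = energy A γ p z ρ g} with hS
  have hne : S.Nonempty := ⟨_, _, _, admissible_of_contDiff (p := p) (lam := lam) (u := fun _ => 0)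
    (fun _ => le_rfl) contDiff_const HasCompactSupport.zero (by simpa using hlam.le), rfl⟩
  have hbd : BddBelow S := by
    refine ⟨-B, ?_⟩
    rintro _ ⟨ρ, g, h, rfl⟩
    rw [energy_eq h]
    have b1 := hB _ _ h
    have b2 := h.coulomb_nonneg
    have b3 : 0 ≤ A * ∑ i, kin g i :=
      mul_nonneg hA.le (Finset.sum_nonneg fun i _ => kin_nonneg _ _)
    linarith
  set m := sInf S with hm
  have hmle : ∀ ρ g, Admissible p lam ρ g → m ≤ energy A γ p z ρ g :=
    fun ρ g h => csInf_le hbd ⟨ρ, g, h, rfl⟩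
  choose ε hε hclose using fun k : ℕ =>
    close_in_measure hp hA hγ hz hlam hmle (η := (1 / 2) ^ k) (by positivity)
  have happ : ∀ δ : ℝ, 0 < δ → ∃ ρ g, Admissible p lam ρ g ∧ energy A γ p z ρ g ≤ m + δ := by
    intro δ hδ
    obtain ⟨_, ⟨ρ, g, h, rfl⟩, hlt⟩ := exists_lt_of_csInf_lt hne (show sInf S < m + δ by linarith)
    exact ⟨ρ, g, h, hlt.le⟩
  choose ρ g hadm hE using fun k : ℕ =>
    happ (min (min (ε k) (ε (k - 1))) ((1 / 2) ^ k)) (lt_min (lt_min (hε _) (hε _)) (by positivity))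
  have hvol : ∀ k, volume {x | (1 / 2 : ℝ) ^ k ≤ |ρ k x - ρ (k + 1) x|} ≤
      ENNReal.ofReal ((1 / 2) ^ k) := by
    intro k
    apply hclose k _ _ _ _ (hadm k) (hadm (k + 1))
    · exact (hE k).trans (by gcongr; exact (min_le_left _ _).trans (min_le_left _ _))
    · exact (hE (k + 1)).trans (by gcongr; exact (min_le_left _ _).trans (min_le_right _ _))
  have hsum : ∑' k, volume {x | (1 / 2 : ℝ) ^ k ≤ |ρ k x - ρ (k + 1) x|} ≠ ⊤ := by
    refine ne_top_of_le_ne_top ?_ (ENNReal.tsum_le_tsum hvol)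
    rw [← ENNReal.ofReal_tsum_of_nonneg (fun k => by positivity) summable_geometric_two]
    exact ENNReal.ofReal_ne_top
  have hl : ∀ᵐ x, Tendsto (fun k => ρ k x) atTop (𝓝 (max (limUnder atTop fun k => ρ k x) 0)) := by
    filter_upwards [ae_eventually_notMem hsum] with x hx
    have hc : CauchySeq (fun k => ρ k x) := by
      apply cauchySeq_of_summable_dist
      refine Summable.of_norm_bounded_eventually_nat summable_geometric_two ?_
      filter_upwards [hx] with k hk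
      simp only [not_le] at hk
      rw [Real.norm_of_nonneg dist_nonneg, Real.dist_eq]
      exact hk.le
    have ht := hc.tendsto_limUnder
    rw [max_eq_left (ge_of_tendsto' ht fun k => (hadm k).nonneg x)]
    exact ht
  obtain ⟨g', h1, h2⟩ := limit_admissible hp hA hγ hz hadm (ε := fun k => (1 / 2) ^ k)
    (tendsto_pow_atTop_nhds_zero_of_lt_one (by norm_num) (by norm_num))
    (fun k => (hE k).trans (by gcongr; exact min_le_right _ _)) (fun x => le_max_right _ _) hl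
  exact ⟨_, g', h1, fun ρ' g'' h => h2.trans (hmle _ _ h)⟩

end Pool.Agent.P.MP_3d36e1_mp
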