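import Pool.Agent.P.MP_3d36e1_mp.Test

set_option autoImplicit false
open MeasureTheory Set Filter
open scoped ContDiff Topology

namespace Pool.Agent.P.MP_3d36e1_mp

lemma scale_int (f : R3 → ℝ) {R : ℝ} (hR : 0 < R) :
    ∫ x, f (R⁻¹ • x) = R ^ 3 * ∫ x, f x := by
  rw [Measure.integral_comp_inv_smul_of_nonneg volume f hR.le, finrank_R3, smul_eq_mul]

lemma scale_mass (f : R3 → ℝ) (a : ℝ) {R : ℝ} (hR : 0 < R) :
    ∫ x, a * f (R⁻¹ • x) = a * R ^ 3 * ∫ x, f x := by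
  rw [integral_const_mul, scale_int f hR, mul_assoc]

lemma scale_pow {f : R3 → ℝ} (hf : ∀ x, 0 ≤ f x) (p : ℝ) {a R : ℝ} (ha : 0 < a) (hR : 0 < R) :
    ∫ x, (a * f (R⁻¹ • x)) ^ p = a ^ p * R ^ 3 * ∫ x, f x ^ p := by
  simp only [Real.mul_rpow ha.le (hf _)]
  exact scale_mass (fun x => f x ^ p) _ hR

lemma scale_V (f : R3 → ℝ) (z a : ℝ) {R : ℝ} (hR : 0 < R) :
    ∫ x, z / ‖x‖ * (a * f (R⁻¹ • x)) = z * a * R ^ 2 * ∫ x, 1 / ‖x‖ * f x := by
  have h := scale_mass (fun x => 1 / ‖x‖ * f x) (z * a * R⁻¹) hR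
  have e : z * a * R⁻¹ * R ^ 3 = z * a * R ^ 2 := by field_simp
  rw [e] at h
  rw [← h]
  congr 1
  funext x
  rw [norm_smul, norm_inv, Real.norm_of_nonneg hR.le]
  by_cases hx : ‖x‖ = 0
  · simp [hx]
  · field_simp

lemma scale_D (f : R3 → ℝ) (a : ℝ) {R : ℝ} (hR : 0 < R) :
    ∫ q : R3 × R3, a * f (R⁻¹ • q.1) * (a * f (R⁻¹ • q.2)) / ‖q.1 - q.2‖ =
      a ^ 2 * R ^ 5 * ∫ q : R3 × R3, f q.1 * f q.2 / ‖q.1 - q.2‖ := by
  have : (volume : Measure (R3 × R3)).IsAddHaarMeasure :=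
    inferInstanceAs ((volume : Measure R3).prod (volume : Measure R3)).IsAddHaarMeasure
  have h := Measure.integral_comp_inv_smul_of_nonneg (volume : Measure (R3 × R3))
    (fun q : R3 × R3 => f q.1 * f q.2 / ‖q.1 - q.2‖) hR.le
  have hf : Module.finrank ℝ (R3 × R3) = 6 := by rw [Module.finrank_prod, finrank_R3]
  rw [hf, smul_eq_mul] at h
  have e : a ^ 2 * R ^ 5 * ∫ q : R3 × R3, f q.1 * f q.2 / ‖q.1 - q.2‖ =
      a ^ 2 * R⁻¹ * (R ^ 6 * ∫ q : R3 × R3, f q.1 * f q.2 / ‖q.1 - q.2‖) := by field_simp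
  rw [e, ← h, ← integral_const_mul]
  congr 1
  funext q
  simp only [Prod.smul_fst, Prod.smul_snd]
  rw [← smul_sub, norm_smul, norm_inv, Real.norm_of_nonneg hR.le]
  by_cases hx : ‖q.1 - q.2‖ = 0
  · simp [hx]
  · field_simp

lemma scale_grad {u : R3 → ℝ} (hu : ContDiff ℝ 1 u) {a R : ℝ} (ha : 0 < a) (hR : 0 < R) :
    ∫ x, ‖gradient (fun x => √a * u (R⁻¹ • x)) x‖ ^ 2 = a * R * ∫ x, ‖gradient u x‖ ^ 2 := by
  have h := scale_mass (fun x => ‖gradient u x‖ ^ 2) (a * R⁻¹ ^ 2) hR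
  have e : a * R⁻¹ ^ 2 * R ^ 3 = a * R := by field_simp
  rw [e] at h
  rw [← h]
  congr 1
  funext x
  have hd : DifferentiableAt ℝ (fun x => u (R⁻¹ • x)) x :=
    ((hu.differentiable (by norm_num)).comp (differentiable_id.const_smul R⁻¹)) x
  rw [norm_gradient_eq, norm_gradient_eq, fderiv_const_mul hd, fderiv_comp_smul, norm_smul,
    norm_smul, norm_inv, Real.norm_of_nonneg hR.le, Real.norm_of_nonneg (Real.sqrt_nonneg _),
    mul_pow, mul_pow, Real.sq_sqrt ha.le, mul_assoc]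

lemma Admissible.integrable_rpow {p lam : ℝ} (hp : 0 < p) {ρ : R3 → ℝ} {g : R3 → R3}
    (h : Admissible p lam ρ g) : Integrable (fun x => ρ x ^ p) := by
  have := h.Lp.integrable_norm_rpow (by simpa using hp) ENNReal.ofReal_ne_top
  simpa [ENNReal.toReal_ofReal hp.le, abs_of_nonneg (h.nonneg _)] using this

lemma Admissible.coulomb_nonneg {p lam : ℝ} {ρ : R3 → ℝ} {g : R3 → R3}
    (h : Admissible p lam ρ g) : 0 ≤ ∫ q : R3 × R3, ρ q.1 * ρ q.2 / ‖q.1 - q.2‖ :=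
  integral_nonneg fun _ => div_nonneg (mul_nonneg (h.nonneg _) (h.nonneg _)) (norm_nonneg _)

theorem beat_convex {p A γ : ℝ} (hp : 3 / 2 < p) (hA : 0 < A) (hγ : 0 < γ) :
    ∃ z lam : ℝ, 0 < z ∧ 0 < lam ∧ ∃ ρ₀ g₀, Admissible p lam ρ₀ g₀ ∧
      ∀ ρ g, Admissible p lam ρ g → ∀ ψ : ℝ → ℝ, (∀ᵐ x, √(ρ x) = ψ ‖x‖) →
        ConvexOn ℝ (Ici 0) ψ → energy A γ p z ρ₀ g₀ < energy A γ p z ρ g := by
  have hp0 : 0 < p := by linarith
  obtain ⟨δ, hδ, hgap⟩ := gap hp
  obtain ⟨u, hu0, hu, hus, hut⟩ := exists_test hp hδ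
  set e := ∫ x : R3, (max (1 / ‖x‖ - 1) 0) ^ (p / (p - 1)) / (p / (p - 1)) with he
  set P := ∫ x, (u x ^ 2) ^ p with hP
  set V := ∫ x, 1 / ‖x‖ * u x ^ 2 with hV
  set N := ∫ x, u x ^ 2 with hN
  set K := ∫ x, ‖gradient u x‖ ^ 2 with hK
  set D := ∫ q : R3 × R3, u q.1 ^ 2 * u q.2 ^ 2 / ‖q.1 - q.2‖ with hD
  have hK0 : 0 ≤ K := integral_nonneg fun x => by positivity
  have hD0 : 0 ≤ D := integral_nonneg fun x => by positivity
  have hadm := admissible_of_contDiff (p := p) hu0 hu hus le_rfl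
  have hN0 : 0 < N := by
    have hz := hgap (fun _ => 0) (fun _ => le_rfl) (integrable_zero _ _ _)
      (by simp [Real.zero_rpow hp0.ne']) (fun _ => 0) (by simp) (convexOn_const _ (convex_Ici _))
    simp only [Real.zero_rpow hp0.ne', integral_zero, mul_zero, sub_self, add_zero] at hz
    rcases (show 0 ≤ N from integral_nonneg fun x => by positivity).eq_or_lt with h | h
    · exfalso
      have h1 : (fun x => u x ^ 2) =ᵐ[volume] 0 :=
        (integral_eq_zero_iff_of_nonneg (fun x => by positivity) hadm.L1).1 h.symm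
      have hP0 : P = 0 := by
        rw [hP, ← integral_zero R3 ℝ (μ := volume)]
        apply integral_congr_ae
        filter_upwards [h1] with x hx
        simp only [Pi.zero_apply] at hx
        simp only [hx, Real.zero_rpow hp0.ne']
      have hV0 : V = 0 := by
        rw [hV, ← integral_zero R3 ℝ (μ := volume)]
        apply integral_congr_ae
        filter_upwards [h1] with x hx
        simp only [Pi.zero_apply] at hx
        simp only [hx, mul_zero]
      rw [hP0, hV0, ← h] at hut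
      linarith
    · exact h
  set G := δ - e - (1 / p * P - V + N) with hG
  have hG0 : 0 < G := by linarith
  set M := 2 * A * (K + 1) / (γ * G) with hM
  have hM0 : 0 < M := by positivity
  have hMK : A * K / (γ * M) < G / 2 := by
    rw [div_lt_iff₀ (by positivity), hM]
    have : G / 2 * (γ * (2 * A * (K + 1) / (γ * G))) = A * (K + 1) := by field_simp
    rw [this]; nlinarith
  have hlim : Tendsto (fun a : ℝ => M * D / (2 * γ) * a ^ (-(2 * p - 3))) atTop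
      (𝓝 (M * D / (2 * γ) * 0)) :=
    (tendsto_rpow_neg_atTop (by linarith)).const_mul _
  rw [mul_zero] at hlim
  obtain ⟨a, haD, ha⟩ := ((hlim.eventually (gt_mem_nhds (half_pos hG0))).and
    (eventually_gt_atTop 0)).exists
  have hap : 0 < a ^ (p - 1) := by positivity
  set R := √(M / a ^ (p - 1)) with hR
  have hR0 : 0 < R := Real.sqrt_pos.2 (by positivity)
  have hR2 : a ^ (p - 1) * R ^ 2 = M := by
    rw [hR, Real.sq_sqrt (by positivity)]; field_simp
  have hap1 : a ^ p = a * a ^ (p - 1) := by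
    rw [Real.rpow_sub_one ha.ne']; field_simp
  have hap2 : a ^ (-(2 * p - 3)) * (a ^ (p - 1)) ^ 2 = a := by
    rw [← Real.rpow_natCast, ← Real.rpow_mul ha.le, ← Real.rpow_add ha]
    have : -(2 * p - 3) + (p - 1) * ((2 : ℕ) : ℝ) = 1 := by push_cast; ring
    rw [this, Real.rpow_one]
  set S := γ * a ^ p * R ^ 3 with hS
  have hS0 : 0 < S := by positivity
  set ut : R3 → ℝ := fun x => √a * u (R⁻¹ • x) with hut'
  have hut0 : ∀ x, 0 ≤ ut x := fun x => mul_nonneg (Real.sqrt_nonneg _) (hu0 _)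
  have hutc : ContDiff ℝ 1 ut := contDiff_const.mul (hu.comp (contDiff_id.const_smul R⁻¹))
  have huts : HasCompactSupport ut :=
    (hus.comp_smul (inv_ne_zero hR0.ne')).mul_left
  have hut2 : ∀ x, ut x ^ 2 = a * u (R⁻¹ • x) ^ 2 := fun x => by
    simp only [hut']; rw [mul_pow, Real.sq_sqrt ha.le]
  refine ⟨γ * a ^ (p - 1) * R, a * R ^ 3 * N, by positivity, by positivity, fun x => ut x ^ 2,
    gradient ut, admissible_of_contDiff hut0 hutc huts ?_, ?_⟩
  · simp only [hut2]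
    exact (scale_mass (fun x => u x ^ 2) a hR0).le
  intro ρ g hρ ψ hρψ hψ
  have hE0 : energy A γ p (γ * a ^ (p - 1) * R) (fun x => ut x ^ 2) (gradient ut) =
      S * (A * K / (γ * M) + (1 / p * P - V) + M * D / (2 * γ) * a ^ (-(2 * p - 3))) := by
    unfold energy
    simp only [hut2]
    rw [scale_grad hu ha hR0, scale_pow (f := fun x => u x ^ 2) (fun x => by positivity) p ha hR0,
      scale_V (fun x => u x ^ 2) _ _ hR0, scale_D (fun x => u x ^ 2) _ hR0, ← hK, ← hP, ← hV, ← hD,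
      hS, hap1, ← hR2]
    have : a ^ (-(2 * p - 3)) = a / (a ^ (p - 1)) ^ 2 := by
      rw [eq_div_iff (by positivity)]; exact hap2
    rw [this]
    field_simp
    ring
  set ρt : R3 → ℝ := fun y => ρ (R • y) / a with hρt
  have hρe : ρ = fun x => a * ρt (R⁻¹ • x) := by
    funext x
    simp only [hρt, smul_inv_smul₀ hR0.ne']
    field_simp
  have hρt0 : ∀ y, 0 ≤ ρt y := fun y => div_nonneg (hρ.nonneg _) ha.le
  have hρt1 : Integrable ρt := (hρ.L1.comp_smul hR0.ne').div_const a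
  have hρtp : Integrable (fun y => ρt y ^ p) := by
    have := ((hρ.integrable_rpow hp0).comp_smul hR0.ne').div_const (a ^ p)
    simpa only [hρt, Real.div_rpow (hρ.nonneg _) ha.le] using this
  have hae : ∀ᵐ y, √(ρt y) = (√a)⁻¹ * ψ (R * ‖y‖) := by
    have h1 : ∀ᵐ x ∂(Measure.map (fun y : R3 => R • y) volume), √(ρ x) = ψ ‖x‖ := by
      rw [Measure.map_addHaar_smul volume hR0.ne']
      exact Measure.ae_smul_measure hρψ _
    filter_upwards [ae_of_ae_map (by fun_prop) h1] with y hy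
    rw [norm_smul, Real.norm_of_nonneg hR0.le] at hy
    simp only [hρt]
    rw [Real.sqrt_div (hρ.nonneg _), hy]; ring
  have hcv : ConvexOn ℝ (Ici 0) (fun r => (√a)⁻¹ * ψ (R * r)) := by
    refine ⟨convex_Ici _, ?_⟩
    intro x hx y hy s t hs ht hst
    have h := hψ.2 (show R * x ∈ Ici (0 : ℝ) from mul_nonneg hR0.le hx)
      (show R * y ∈ Ici (0 : ℝ) from mul_nonneg hR0.le hy) hs ht hst
    simp only [smul_eq_mul] at h ⊢
    have e : R * (s * x + t * y) = s * (R * x) + t * (R * y) := by ring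
    rw [e]
    have hi : 0 ≤ (√a)⁻¹ := by positivity
    calc (√a)⁻¹ * ψ (s * (R * x) + t * (R * y))
        ≤ (√a)⁻¹ * (s * ψ (R * x) + t * ψ (R * y)) := by gcongr
      _ = _ := by ring
  have hg := hgap ρt hρt0 hρt1 hρtp _ hae hcv
  have hmass : ∫ y, ρt y ≤ N := by
    have h1 := hρ.mass
    rw [hρe, scale_mass ρt a hR0] at h1
    exact le_of_mul_le_mul_left h1 (by positivity)
  have hE1 : S * (1 / p * (∫ y, ρt y ^ p) - ∫ y, 1 / ‖y‖ * ρt y) ≤
      energy A γ p (γ * a ^ (p - 1) * R) ρ g := by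
    have c0 := hρ.coulomb_nonneg
    have k0 : 0 ≤ ∫ x, ‖g x‖ ^ 2 := integral_nonneg fun x => by positivity
    have e1 : ∫ x, ρ x ^ p = a ^ p * R ^ 3 * ∫ y, ρt y ^ p := by
      rw [← scale_pow hρt0 p ha hR0]; conv_lhs => rw [hρe]
    have e2 : ∫ x, γ * a ^ (p - 1) * R / ‖x‖ * ρ x =
        γ * a ^ (p - 1) * R * a * R ^ 2 * ∫ y, 1 / ‖y‖ * ρt y := by
      rw [← scale_V ρt _ _ hR0]; conv_lhs => rw [hρe]
    unfold energy
    rw [e1, e2, hS, hap1]
    have : γ * (a * a ^ (p - 1)) * R ^ 3 * (1 / p * (∫ y, ρt y ^ p) - ∫ y, 1 / ‖y‖ * ρt y) =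
        γ / p * (a * a ^ (p - 1) * R ^ 3 * ∫ y, ρt y ^ p) -
          γ * a ^ (p - 1) * R * a * R ^ 2 * ∫ y, 1 / ‖y‖ * ρt y := by ring
    rw [this]
    nlinarith [mul_nonneg hA.le k0]
  rw [hE0]
  refine lt_of_lt_of_le ?_ hE1
  apply mul_lt_mul_of_pos_left _ hS0
  linarith

lemma convexOn_of_log {ψ : ℝ → ℝ} (h0 : ∀ r ∈ Ici (0 : ℝ), 0 < ψ r)
    (h : ConvexOn ℝ (Ici 0) (fun r => Real.log (ψ r))) : ConvexOn ℝ (Ici 0) ψ := by
  refine ⟨convex_Ici _, ?_⟩
  intro x hx y hy s t hs ht hst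
  have h1 := h.2 hx hy hs ht hst
  have h2 := convexOn_exp.2 (mem_univ (Real.log (ψ x))) (mem_univ (Real.log (ψ y))) hs ht hst
  rw [Real.exp_log (h0 x hx), Real.exp_log (h0 y hy)] at h2
  rw [← Real.exp_log (h0 _ (convex_Ici 0 hx hy hs ht hst))]
  exact (Real.exp_le_exp.2 h1).trans h2

end Pool.Agent.P.MP_3d36e1_mp
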