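import Pool.Agent.P.MP_3d36e1_mp.Defs

set_option autoImplicit false
open MeasureTheory Set
open scoped ContDiff

namespace Pool.Agent.P.MP_3d36e1_mp

lemma finrank_R3 : Module.finrank ℝ R3 = 3 := by simp [R3]

lemma young {p : ℝ} (hp : 1 < p) (ρ W : ℝ) (hρ : 0 ≤ ρ) :
    W * ρ ≤ ρ ^ p / p + (max W 0) ^ (p / (p - 1)) / (p / (p - 1)) := by
  have hpq : p.HolderConjugate (p / (p - 1)) := Real.HolderConjugate.conjExponent hp
  have h := Real.young_inequality_of_nonneg hρ (le_max_right W 0) hpq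
  have : W * ρ ≤ ρ * max W 0 := by
    rw [mul_comm ρ]; exact mul_le_mul_of_nonneg_right (le_max_left _ _) hρ
  linarith

lemma conj_lt_three {p : ℝ} (hp : 3 / 2 < p) : p / (p - 1) < 3 := by
  rw [div_lt_iff₀ (by linarith)]; linarith

lemma conj_pos {p : ℝ} (hp : 1 < p) : 0 < p / (p - 1) := by
  apply div_pos <;> linarith

lemma integrable_estar {z μ q : ℝ} (hz : 0 < z) (hμ : 0 < μ) (hq0 : 0 < q) (hq : q < 3) :
    Integrable (fun x : R3 => (max (z / ‖x‖ - μ) 0) ^ q) := by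
  have hm : AEStronglyMeasurable (fun x : R3 => (max (z / ‖x‖ - μ) 0) ^ q) volume := by
    apply Measurable.aestronglyMeasurable
    fun_prop
  have h1 : IntegrableOn (fun x : R3 => (max (z / ‖x‖ - μ) 0) ^ q) (Metric.ball 0 (z / μ)) := by
    apply integrableOn_ball_of_norm_le_rpow (C := z ^ q) (α := q) (by rw [finrank_R3]; norm_num)
      (by rw [finrank_R3]; exact_mod_cast hq) _ hm
    apply Filter.Eventually.of_forall
    intro x
    have h0 : 0 ≤ max (z / ‖x‖ - μ) 0 := le_max_right _ _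
    rw [Real.norm_of_nonneg (Real.rpow_nonneg h0 _), Real.rpow_neg (norm_nonneg _),
      ← div_eq_mul_inv, ← Real.div_rpow hz.le (norm_nonneg _)]
    apply Real.rpow_le_rpow h0 _ hq0.le
    apply max_le
    · linarith
    · positivity
  apply h1.integrable_of_forall_notMem_eq_zero
  intro x hx
  rw [mem_ball_zero_iff, not_lt] at hx
  have hx0 : 0 < ‖x‖ := lt_of_lt_of_le (by positivity) hx
  have : z / ‖x‖ - μ ≤ 0 := by
    rw [sub_nonpos, div_le_iff₀ hx0]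
    rw [div_le_iff₀ hμ] at hx
    linarith
  rw [max_eq_right this, Real.zero_rpow hq0.ne']

lemma integrable_V {p z : ℝ} (hp : 3 / 2 < p) (hz : 0 < z) {ρ : R3 → ℝ} (h0 : ∀ x, 0 ≤ ρ x)
    (h1 : Integrable ρ) (hp' : Integrable (fun x => ρ x ^ p)) :
    Integrable (fun x => z / ‖x‖ * ρ x) := by
  have hp1 : 1 < p := by linarith
  have he := integrable_estar hz one_pos (conj_pos hp1) (conj_lt_three hp)
  have hb := ((hp'.div_const p).add (he.div_const (p / (p - 1)))).add h1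
  refine hb.mono' ?_ (Filter.Eventually.of_forall fun x => ?_)
  · apply AEStronglyMeasurable.mul _ h1.aestronglyMeasurable
    apply Measurable.aestronglyMeasurable
    fun_prop
  · have := young hp1 (ρ x) (z / ‖x‖ - 1) (h0 x)
    rw [Real.norm_of_nonneg (mul_nonneg (by positivity) (h0 x))]
    simp only [Pi.add_apply]
    linarith

/-- open annulus -/
def ann (a b : ℝ) : Set R3 := {x | a < ‖x‖ ∧ ‖x‖ < b}

lemma isOpen_ann (a b : ℝ) : IsOpen (ann a b) :=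
  (isOpen_lt continuous_const continuous_norm).inter (isOpen_lt continuous_norm continuous_const)

lemma ann_lt_top (a b : ℝ) : volume (ann a b) < ⊤ := by
  refine lt_of_le_of_lt (measure_mono ?_) (measure_ball_lt_top (x := (0 : R3)) (r := b))
  intro x hx
  exact mem_ball_zero_iff.2 hx.2

lemma ann_pos {a b : ℝ} (ha : 0 ≤ a) (hab : a < b) : 0 < volume.real (ann a b) := by
  refine ENNReal.toReal_pos ((isOpen_ann a b).measure_ne_zero volume ?_) (ann_lt_top a b).ne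
  obtain ⟨x, hx⟩ := exists_norm_eq R3 (c := (a + b) / 2) (by linarith)
  exact ⟨x, by simp only [ann, mem_ofPred_eq, hx]; constructor <;> linarith⟩

lemma ann_bound {h : R3 → ℝ} (h0 : ∀ x, 0 ≤ h x) (hi : Integrable h) {a b c : ℝ}
    (hc : ∀ᵐ x, x ∈ ann a b → c ≤ h x) : c * volume.real (ann a b) ≤ ∫ x, h x := by
  have hm := (isOpen_ann a b).measurableSet
  have h1 : ∫ x, (ann a b).indicator (fun _ => c) x = c * volume.real (ann a b) := by
    rw [integral_indicator_const c hm, smul_eq_mul, mul_comm]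
  rw [← h1]
  apply integral_mono_ae _ hi
  · filter_upwards [hc] with x hx
    by_cases hx' : x ∈ ann a b
    · rw [indicator_of_mem hx']; exact hx hx'
    · rw [indicator_of_notMem hx']; exact h0 x
  · exact (integrable_indicator_iff hm).2 (integrableOn_const (ann_lt_top a b).ne)

lemma exists_tau {s M : ℝ} (hs1 : s < 1) (hM : 0 < M) :
    ∃ τ : ℝ, 0 < τ ∧ τ ≤ 1 / 6 ∧ (9 * M + 1) * τ ≤ τ ^ s / 2 := by
  set c : ℝ := 1 / (2 * (9 * M + 1)) with hc
  have hc0 : 0 < c := by positivity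
  have h1s : 0 < 1 - s := by linarith
  set τ := min (1 / 6) (c ^ (1 / (1 - s))) with hτ
  have hτ0 : 0 < τ := lt_min (by norm_num) (by positivity)
  refine ⟨τ, hτ0, min_le_left _ _, ?_⟩
  have h1 : τ ^ (1 - s) ≤ c := by
    calc τ ^ (1 - s) ≤ (c ^ (1 / (1 - s))) ^ (1 - s) :=
          Real.rpow_le_rpow hτ0.le (min_le_right _ _) h1s.le
      _ = c := by rw [← Real.rpow_mul hc0.le, one_div_mul_cancel h1s.ne', Real.rpow_one]
  have h2 : τ = τ ^ (1 - s) * τ ^ s := by rw [← Real.rpow_add hτ0]; simp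
  have h3 : 0 < τ ^ s := by positivity
  calc (9 * M + 1) * τ = (9 * M + 1) * (τ ^ (1 - s) * τ ^ s) := by rw [← h2]
    _ ≤ (9 * M + 1) * (c * τ ^ s) := by gcongr
    _ = τ ^ s / 2 := by rw [hc]; field_simp

lemma chord {ψ : ℝ → ℝ} (hψ : ConvexOn ℝ (Ici 0) ψ) {M τ x₁ x₃ r : ℝ} (hM : 0 < M) (hτ : 0 < τ)
    (hτ6 : τ ≤ 1 / 6) (h1 : x₁ ∈ Ioo (1 / 2 : ℝ) (2 / 3)) (h3 : x₃ ∈ Ioo 1 (1 + τ))
    (hr : r ∈ Ioo (1 - 2 * τ) (1 - τ)) (hψ1 : ψ x₁ < M) (hψ3 : ψ x₃ < τ) :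
    ψ r ≤ (9 * M + 1) * τ := by
  obtain ⟨h1a, h1b⟩ := h1
  obtain ⟨h3a, h3b⟩ := h3
  obtain ⟨hra, hrb⟩ := hr
  have hd : 0 < x₃ - x₁ := by linarith
  set a := (x₃ - r) / (x₃ - x₁) with ha
  set b := (r - x₁) / (x₃ - x₁) with hb
  have ha0 : 0 ≤ a := div_nonneg (by linarith) hd.le
  have hb0 : 0 ≤ b := div_nonneg (by linarith) hd.le
  have hab : a + b = 1 := by rw [ha, hb]; field_simp; ring
  have hr' : a • x₁ + b • x₃ = r := by simp only [smul_eq_mul, ha, hb]; field_simp; ring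
  have h := hψ.2 (show x₁ ∈ Ici (0 : ℝ) by simp only [mem_Ici]; linarith)
    (show x₃ ∈ Ici (0 : ℝ) by simp only [mem_Ici]; linarith) ha0 hb0 hab
  rw [hr'] at h
  simp only [smul_eq_mul] at h
  have ha9 : a ≤ 9 * τ := by
    rw [ha, div_le_iff₀ hd]; nlinarith
  have hb1 : b ≤ 1 := by linarith
  have e1 : a * ψ x₁ ≤ 9 * τ * M := by
    calc a * ψ x₁ ≤ a * M := by gcongr
      _ ≤ 9 * τ * M := by gcongr
  have e2 : b * ψ x₃ ≤ τ := by
    calc b * ψ x₃ ≤ b * τ := by gcongr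
      _ ≤ 1 * τ := by gcongr
      _ = τ := one_mul _
  nlinarith

lemma case_one {p ρ w e : ℝ} (hp : 1 < p) (hw : w ≤ 1) (he : 0 ≤ e) (hρ0 : 0 ≤ ρ)
    (h : (2 * p) ^ (1 / (2 * (p - 1))) ≤ √ρ) :
    ((2 * p) ^ (1 / (2 * (p - 1)))) ^ 2 ≤ ρ ^ p / p - w * ρ + e := by
  have hp0 : 0 < p := by linarith
  have hp1 : 0 < p - 1 := by linarith
  set M := (2 * p) ^ (1 / (2 * (p - 1))) with hM
  have hM0 : 0 < M := by positivity
  have h1 : M ^ 2 ≤ ρ := by
    calc M ^ 2 ≤ √ρ ^ 2 := by gcongr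
      _ = ρ := Real.sq_sqrt hρ0
  have hρ : 0 < ρ := lt_of_lt_of_le (by positivity) h1
  have h2 : (M ^ 2) ^ (p - 1) = 2 * p := by
    rw [hM, ← Real.rpow_natCast, ← Real.rpow_mul (by positivity), ← Real.rpow_mul (by positivity)]
    have : 1 / (2 * (p - 1)) * (((2 : ℕ) : ℝ) * (p - 1)) = 1 := by
      push_cast; field_simp
    rw [this, Real.rpow_one]
  have h3 : 2 * p ≤ ρ ^ (p - 1) := by
    rw [← h2]; exact Real.rpow_le_rpow (by positivity) h1 hp1.le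
  have h4 : ρ ^ p = ρ * ρ ^ (p - 1) := by
    rw [Real.rpow_sub_one hρ.ne']; field_simp
  have h5 : 2 * ρ ≤ ρ ^ p / p := by
    rw [le_div_iff₀ hp0, h4]; nlinarith
  nlinarith

lemma case_three {p ρ w e τ : ℝ} (hp : 1 < p) (hw : w ≤ 0) (he : 0 ≤ e) (hρ0 : 0 ≤ ρ) (hτ : 0 < τ)
    (h : τ ≤ √ρ) : (τ ^ 2) ^ p / p ≤ ρ ^ p / p - w * ρ + e := by
  have hp0 : 0 < p := by linarith
  have h1 : τ ^ 2 ≤ ρ := by
    calc τ ^ 2 ≤ √ρ ^ 2 := by gcongr
      _ = ρ := Real.sq_sqrt hρ0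
  have h2 : (τ ^ 2) ^ p / p ≤ ρ ^ p / p := by gcongr
  nlinarith [mul_nonneg (neg_nonneg.2 hw) hρ0]

lemma case_two {p ρ w τ : ℝ} (hp : 3 / 2 < p) (hτ : 0 < τ) (hw : τ ≤ w) (hρ0 : 0 ≤ ρ)
    (h : √ρ ≤ τ ^ (1 / (2 * (p - 1))) / 2) :
    τ ^ (p / (p - 1)) / 12 ≤ ρ ^ p / p - w * ρ + (max w 0) ^ (p / (p - 1)) / (p / (p - 1)) := by
  have hp0 : 0 < p := by linarith
  have hp1 : 0 < p - 1 := by linarith
  have hw0 : 0 < w := by linarith
  rw [max_eq_left hw0.le]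
  have h1 : ρ ≤ τ ^ (1 / (p - 1)) / 4 := by
    calc ρ = √ρ ^ 2 := (Real.sq_sqrt hρ0).symm
      _ ≤ (τ ^ (1 / (2 * (p - 1))) / 2) ^ 2 := by gcongr
      _ = τ ^ (1 / (p - 1)) / 4 := by
        rw [div_pow, ← Real.rpow_natCast, ← Real.rpow_mul hτ.le]
        congr 1
        · congr 1; push_cast; field_simp
        · norm_num
  have h2 : τ ^ (1 / (p - 1)) ≤ w ^ (1 / (p - 1)) := by gcongr
  have h3 : w * w ^ (1 / (p - 1)) = w ^ (p / (p - 1)) := by
    rw [← Real.rpow_one_add' hw0.le (by positivity)]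
    congr 1; field_simp; ring
  have h4 : τ ^ (p / (p - 1)) ≤ w ^ (p / (p - 1)) := by gcongr
  have h5 : w * ρ ≤ w ^ (p / (p - 1)) / 4 := by
    rw [← h3]; nlinarith
  have h6 : w ^ (p / (p - 1)) / 3 ≤ w ^ (p / (p - 1)) / (p / (p - 1)) := by
    apply div_le_div_of_nonneg_left (by positivity) (by positivity) (conj_lt_three hp).le
  have h7 : 0 ≤ ρ ^ p / p := by positivity
  linarith

/-- the normalised Thomas-Fermi free energy of a convex radial profile stays a fixed amount above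
its unconstrained minimum -/
theorem gap {p : ℝ} (hp : 3 / 2 < p) : ∃ δ : ℝ, 0 < δ ∧ ∀ ρ : R3 → ℝ, (∀ x, 0 ≤ ρ x) →
    Integrable ρ → Integrable (fun x => ρ x ^ p) → ∀ ψ : ℝ → ℝ, (∀ᵐ x, √(ρ x) = ψ ‖x‖) →
    ConvexOn ℝ (Ici 0) ψ →
    δ - ∫ x : R3, (max (1 / ‖x‖ - 1) 0) ^ (p / (p - 1)) / (p / (p - 1)) ≤
      1 / p * (∫ x, ρ x ^ p) - (∫ x, 1 / ‖x‖ * ρ x) + ∫ x, ρ x := by
  have hp1 : 1 < p := by linarith
  have hp0 : 0 < p := by linarith
  have hp1' : 0 < p - 1 := by linarith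
  set s := 1 / (2 * (p - 1)) with hs
  have hs1 : s < 1 := by rw [hs, div_lt_one (by positivity)]; linarith
  set M := (2 * p) ^ s with hM
  have hM0 : 0 < M := by positivity
  obtain ⟨τ, hτ, hτ6, hτs⟩ := exists_tau hs1 hM0
  set q := p / (p - 1) with hq
  have hq0 : 0 < q := conj_pos hp1
  have v1 := ann_pos (a := 1 / 2) (b := 2 / 3) (by norm_num) (by norm_num)
  have v2 := ann_pos (a := 1 - 2 * τ) (b := 1 - τ) (by linarith) (by linarith)
  have v3 := ann_pos (a := 1) (b := 1 + τ) (by norm_num) (by linarith)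
  refine ⟨min (M ^ 2 * volume.real (ann (1 / 2) (2 / 3)))
    (min (τ ^ q / 12 * volume.real (ann (1 - 2 * τ) (1 - τ)))
      ((τ ^ 2) ^ p / p * volume.real (ann 1 (1 + τ)))), by positivity, ?_⟩
  intro ρ h0 h1 hp' ψ hρψ hψ
  have he : Integrable (fun x : R3 => (max (1 / ‖x‖ - 1) 0) ^ q / q) :=
    (integrable_estar one_pos one_pos hq0 (conj_lt_three hp)).div_const q
  have hV := integrable_V hp one_pos h0 h1 hp'
  set h : R3 → ℝ := fun x => ρ x ^ p / p - (1 / ‖x‖ - 1) * ρ x + (max (1 / ‖x‖ - 1) 0) ^ q / q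
    with hh
  have hh0 : ∀ x, 0 ≤ h x := fun x => by
    have := young hp1 (ρ x) (1 / ‖x‖ - 1) (h0 x)
    rw [← hq] at this
    simp only [hh]; linarith
  have hheq : h = fun x => (1 / p * ρ x ^ p - 1 / ‖x‖ * ρ x + ρ x) +
      (max (1 / ‖x‖ - 1) 0) ^ q / q := by
    funext x; simp only [hh]; ring
  have hi1 : Integrable (fun x => 1 / p * ρ x ^ p) := hp'.const_mul _
  have hi2 : Integrable (fun x => 1 / p * ρ x ^ p - 1 / ‖x‖ * ρ x) := hi1.sub hV
  have hi3 : Integrable (fun x => 1 / p * ρ x ^ p - 1 / ‖x‖ * ρ x + ρ x) := hi2.add h1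
  have hhi : Integrable h := by rw [hheq]; exact hi3.add he
  have hint : ∫ x, h x = (1 / p * (∫ x, ρ x ^ p) - (∫ x, 1 / ‖x‖ * ρ x) + ∫ x, ρ x) +
      ∫ x : R3, (max (1 / ‖x‖ - 1) 0) ^ q / q := by
    rw [hheq, integral_add hi3 he, integral_add hi2 h1, integral_sub hi1 hV, integral_const_mul]
  rw [sub_le_iff_le_add, ← hint]
  have he0 : ∀ x : R3, 0 ≤ (max (1 / ‖x‖ - 1) 0) ^ q / q := fun x => by
    have : 0 ≤ max (1 / ‖x‖ - 1) 0 := le_max_right _ _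
    positivity
  by_cases c1 : ∀ r ∈ Ioo (1 / 2 : ℝ) (2 / 3), M ≤ ψ r
  · refine (min_le_left _ _).trans (ann_bound hh0 hhi ?_)
    filter_upwards [hρψ] with x hx hx'
    apply case_one hp1 _ (he0 x) (h0 x)
    · rw [hx]; exact c1 _ hx'
    · have : 0 < ‖x‖ := by linarith [hx'.1]
      rw [sub_le_iff_le_add, div_le_iff₀ this]; linarith [hx'.1]
  by_cases c3 : ∀ r ∈ Ioo 1 (1 + τ), τ ≤ ψ r
  · refine ((min_le_right _ _).trans (min_le_right _ _)).trans (ann_bound hh0 hhi ?_)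
    filter_upwards [hρψ] with x hx hx'
    apply case_three hp1 _ (he0 x) (h0 x) hτ
    · rw [hx]; exact c3 _ hx'
    · have : 0 < ‖x‖ := by linarith [hx'.1]
      rw [sub_nonpos, div_le_one this]; exact hx'.1.le
  push Not at c1 c3
  obtain ⟨x₁, hx₁, hψ1⟩ := c1
  obtain ⟨x₃, hx₃, hψ3⟩ := c3
  refine ((min_le_right _ _).trans (min_le_left _ _)).trans (ann_bound hh0 hhi ?_)
  filter_upwards [hρψ] with x hx hx'
  apply case_two hp hτ _ (h0 x)
  · rw [hx]; exact (chord hψ hM0 hτ hτ6 hx₁ hx₃ hx' hψ1 hψ3).trans hτs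
  · have : 0 < ‖x‖ := by linarith [hx'.1]
    rw [le_sub_iff_add_le, le_div_iff₀ this]
    nlinarith [hx'.2]

end Pool.Agent.P.MP_3d36e1_mp
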