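import Pool.Agent.P.MP_3d36e1_mp.Exist

set_option autoImplicit false
open MeasureTheory Set Filter
open scoped ContDiff Topology ENNReal

namespace Pool.Agent.P.MP_3d36e1_mp

theorem minimiser_unique {A γ p z lam : ℝ} (hp : 3 / 2 < p) (hA : 0 < A) (hγ : 0 < γ)
    (hz : 0 < z) {ρ₁ ρ₂ : R3 → ℝ} (h₁ : IsMinimiser A γ p z lam ρ₁)
    (h₂ : IsMinimiser A γ p z lam ρ₂) : ρ₁ =ᵐ[volume] ρ₂ := by
  have hp0 : 0 < p := by linarith
  have hp1 : 1 < p := by linarith
  obtain ⟨g₁, a₁, m₁⟩ := h₁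
  obtain ⟨g₂, a₂, m₂⟩ := h₂
  obtain ⟨hi, g, hg, hle⟩ := midpoint_energy (A := A) (γ := γ) hp hA hz a₁ a₂
  have h0 : ∀ x, 0 ≤ defect p (ρ₁ x) (ρ₂ x) := fun x =>
    defect_nonneg hp1.le (a₁.nonneg x) (a₂.nonneg x)
  have hz' : ∫ x, defect p (ρ₁ x) (ρ₂ x) = 0 := by
    apply le_antisymm _ (integral_nonneg h0)
    have e1 := m₁ _ _ hg
    have e2 := m₂ _ _ hg
    apply le_of_mul_le_mul_left _ (show 0 < γ / p by positivity)
    linarith
  filter_upwards [(integral_eq_zero_iff_of_nonneg h0 hi).1 hz'] with x hx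
  by_contra hne
  exact (defect_pos hp1 (a₁.nonneg x) (a₂.nonneg x) hne).ne' hx

lemma iso_int (R : R3 ≃ₗᵢ[ℝ] R3) (f : R3 → ℝ) : ∫ x, f (R x) = ∫ x, f x :=
  R.measurePreserving.integral_comp R.toHomeomorph.measurableEmbedding f

lemma iso_prod (R : R3 ≃ₗᵢ[ℝ] R3) :
    MeasurePreserving (Prod.map R R) (volume : Measure (R3 × R3)) volume :=
  R.measurePreserving.prod R.measurePreserving

lemma iso_emb (R : R3 ≃ₗᵢ[ℝ] R3) : MeasurableEmbedding (Prod.map R R) :=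
  R.toHomeomorph.measurableEmbedding.prodMap R.toHomeomorph.measurableEmbedding

lemma coulomb_iso (R : R3 ≃ₗᵢ[ℝ] R3) (ρ : R3 → ℝ) :
    (fun q : R3 × R3 => ρ (R q.1) * ρ (R q.2) / ‖q.1 - q.2‖) =
      (fun q : R3 × R3 => ρ q.1 * ρ q.2 / ‖q.1 - q.2‖) ∘ Prod.map R R := by
  funext q
  simp only [Function.comp, Prod.map]
  rw [← map_sub, R.norm_map]

lemma Admissible.iso {p lam : ℝ} {ρ : R3 → ℝ} {g : R3 → R3} (h : Admissible p lam ρ g)
    (R : R3 ≃ₗᵢ[ℝ] R3) : Admissible p lam (fun x => ρ (R x)) (fun x => R.symm (g (R x))) := by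
  refine ⟨fun x => h.nonneg _, ?_, ?_, ?_, h.Lp.comp_measurePreserving R.measurePreserving, ?_, ?_⟩
  · intro φ hφ hs v
    have h1 := h.grad (φ ∘ R.symm) (hφ.comp R.symm.contDiff)
      (hs.comp_homeomorph R.symm.toHomeomorph) (R v)
    rw [← iso_int R (fun x => √(ρ x) * fderiv ℝ (φ ∘ R.symm) x (R v)),
      ← iso_int R (fun x => inner ℝ (g x) (R v) * (φ ∘ R.symm) x)] at h1
    have e1 : ∀ x, fderiv ℝ (φ ∘ R.symm) (R x) (R v) = fderiv ℝ φ x v := by
      intro x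
      have := R.symm.toContinuousLinearEquiv.comp_right_fderiv (f := φ) (x := R x)
      simp only [LinearIsometryEquiv.coe_toContinuousLinearEquiv] at this
      rw [this]
      simp
    have e2 : ∀ x, inner ℝ (g (R x)) (R v) = inner ℝ (R.symm (g (R x))) v := by
      intro x
      rw [← R.inner_map_map (R.symm (g (R x))) v, R.apply_symm_apply]
    simpa only [e1, e2, Function.comp, R.symm_apply_apply] using h1
  · exact (R.symm.toContinuousLinearEquiv : R3 →L[ℝ] R3).comp_memLp'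
      (h.grad_L2.comp_measurePreserving R.measurePreserving)
  · exact (R.measurePreserving.integrable_comp_emb R.toHomeomorph.measurableEmbedding).2 h.L1
  · rw [coulomb_iso]
    exact ((iso_prod R).integrable_comp_emb (iso_emb R)).2 h.coulomb
  · rw [iso_int R ρ]; exact h.mass

lemma energy_iso (A γ p z : ℝ) (ρ : R3 → ℝ) (g : R3 → R3) (R : R3 ≃ₗᵢ[ℝ] R3) :
    energy A γ p z (fun x => ρ (R x)) (fun x => R.symm (g (R x))) = energy A γ p z ρ g := by
  unfold energy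
  simp only [LinearIsometryEquiv.norm_map]
  rw [iso_int R (fun x => ‖g x‖ ^ 2), iso_int R (fun x => ρ x ^ p), coulomb_iso,
    ← iso_int R (fun x => z / ‖x‖ * ρ x)]
  simp only [LinearIsometryEquiv.norm_map]
  congr 2
  exact (iso_prod R).integral_comp (iso_emb R) (fun q : R3 × R3 => ρ q.1 * ρ q.2 / ‖q.1 - q.2‖)

lemma IsMinimiser.iso {A γ p z lam : ℝ} {ρ : R3 → ℝ} (h : IsMinimiser A γ p z lam ρ)
    (R : R3 ≃ₗᵢ[ℝ] R3) : IsMinimiser A γ p z lam (fun x => ρ (R x)) := by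
  obtain ⟨g, a, m⟩ := h
  exact ⟨_, a.iso R, fun ρ' g' h' => by rw [energy_iso]; exact m _ _ h'⟩

lemma radial_of_invariant {ρ : R3 → ℝ} (hi : Integrable ρ)
    (h : ∀ R : R3 ≃ₗᵢ[ℝ] R3, (fun x => ρ (R x)) =ᵐ[volume] ρ) :
    ∃ f : ℝ → ℝ, ∀ᵐ x, ρ x = f ‖x‖ := by
  set e : R3 := EuclideanSpace.single 0 (1 : ℝ) with he
  have hav : ∀ (x : R3) (δ : ℝ), ⨍ y in Metric.closedBall x δ, ρ y =
      ⨍ y in Metric.closedBall (‖x‖ • e) δ, ρ y := by
    intro x δ
    have hn : ‖x‖ = ‖‖x‖ • e‖ := by simp [he, norm_smul]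
    set R := Submodule.reflection (ℝ ∙ (x - ‖x‖ • e))ᗮ with hR
    have hRx : R x = ‖x‖ • e := Submodule.reflection_sub hn
    have hpre : R ⁻¹' Metric.closedBall (‖x‖ • e) δ = Metric.closedBall x δ := by
      rw [← hRx, R.preimage_closedBall, R.symm_apply_apply]
    rw [setAverage_eq, setAverage_eq, Measure.addHaar_real_closedBall_center volume x,
      Measure.addHaar_real_closedBall_center volume (‖x‖ • e),
      ← R.measurePreserving.setIntegral_preimage_emb R.toHomeomorph.measurableEmbedding ρ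
        (Metric.closedBall (‖x‖ • e) δ), hpre]
    congr 1
    exact integral_congr_ae (ae_restrict_of_ae (h R).symm)
  refine ⟨fun r => limUnder (𝓝[>] (0 : ℝ)) fun δ => ⨍ y in Metric.closedBall (r • e) δ, ρ y, ?_⟩
  filter_upwards [IsUnifLocDoublingMeasure.ae_tendsto_average volume hi.locallyIntegrable 1]
    with x hx
  have ht := hx (l := 𝓝[>] (0 : ℝ)) (fun _ => x) id tendsto_id (by
    filter_upwards [self_mem_nhdsWithin] with δ hδ
    exact Metric.mem_closedBall_self (by simpa using le_of_lt hδ))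
  simp only [id, hav x] at ht
  exact ht.limUnder_eq.symm

theorem exists_radial_minimiser {A γ p z lam : ℝ} (hp : 3 / 2 < p) (hA : 0 < A) (hγ : 0 < γ)
    (hz : 0 < z) (hlam : 0 < lam) :
    ∃ (ρ : R3 → ℝ) (ψ : ℝ → ℝ), IsMinimiser A γ p z lam ρ ∧ ∀ᵐ x, √(ρ x) = ψ ‖x‖ := by
  obtain ⟨ρ, h⟩ := exists_minimiser hp hA hγ hz hlam
  obtain ⟨f, hf⟩ := radial_of_invariant h.choose_spec.1.L1
    (fun R => minimiser_unique hp hA hγ hz (h.iso R) h)
  refine ⟨ρ, fun r => √(f r), h, ?_⟩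
  filter_upwards [hf] with x hx
  rw [hx]

end Pool.Agent.P.MP_3d36e1_mp
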