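import Pool.Agent.P.MP_3d36e1_mp.Gap

set_option autoImplicit false
open MeasureTheory Set Filter
open scoped ContDiff Topology

namespace Pool.Agent.P.MP_3d36e1_mp

lemma norm_gradient_eq (u : R3 → ℝ) (x : R3) : ‖gradient u x‖ = ‖fderiv ℝ u x‖ := by
  simp [gradient]

lemma inner_gradient_eq (u : R3 → ℝ) (x v : R3) : inner ℝ (gradient u x) v = fderiv ℝ u x v := by
  simp [gradient]

lemma coulomb_integrable {ρ : R3 → ℝ} (h0 : ∀ x, 0 ≤ ρ x) (hc : Continuous ρ)
    (hs : HasCompactSupport ρ) :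
    Integrable (fun q : R3 × R3 => ρ q.1 * ρ q.2 / ‖q.1 - q.2‖) := by
  obtain ⟨C, hC⟩ := hc.bounded_above_of_compact_support hs
  obtain ⟨R, hR, hRs⟩ := hs.isCompact.isBounded.exists_pos_norm_lt
  have hk := integrable_estar (z := 2) (μ := 1 / (2 * R)) (q := 1) (by norm_num) (by positivity)
    one_pos (by norm_num)
  have hi := hc.integrable_of_hasCompactSupport (μ := volume) hs
  have h := (hi.convolution_integrand (ContinuousLinearMap.mul ℝ ℝ) hk).const_mul C
  refine h.mono' ?_ (Eventually.of_forall fun q => ?_)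
  · apply Measurable.aestronglyMeasurable
    have := hc.measurable
    fun_prop
  · have h1 := h0 q.1
    have h2 := h0 q.2
    have hC1 : ρ q.1 ≤ C := (le_abs_self _).trans (hC q.1)
    have hC0 : 0 ≤ C := h1.trans hC1
    rw [Real.norm_of_nonneg (by positivity)]
    simp only [ContinuousLinearMap.mul_apply', Real.rpow_one]
    have hm : 0 ≤ max (2 / ‖q.1 - q.2‖ - 1 / (2 * R)) 0 := le_max_right _ _
    by_cases e1 : ρ q.1 = 0
    · rw [e1]; simp only [zero_mul, zero_div]; positivity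
    by_cases e2 : ρ q.2 = 0
    · rw [e2]; simp
    have n1 := hRs q.1 (subset_tsupport _ e1)
    have n2 := hRs q.2 (subset_tsupport _ e2)
    have n3 : ‖q.1 - q.2‖ ≤ 2 * R := (norm_sub_le _ _).trans (by linarith)
    have key : 1 / ‖q.1 - q.2‖ ≤ max (2 / ‖q.1 - q.2‖ - 1 / (2 * R)) 0 := by
      rcases (norm_nonneg (q.1 - q.2)).eq_or_lt with h3 | h3
      · rw [← h3]; simp
      · refine le_trans ?_ (le_max_left _ _)
        have : 1 / (2 * R) ≤ 1 / ‖q.1 - q.2‖ := one_div_le_one_div_of_le h3 n3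
        have e : 2 / ‖q.1 - q.2‖ = 1 / ‖q.1 - q.2‖ + 1 / ‖q.1 - q.2‖ := by ring
        linarith
    calc ρ q.1 * ρ q.2 / ‖q.1 - q.2‖ = ρ q.1 * (ρ q.2 * (1 / ‖q.1 - q.2‖)) := by ring
      _ ≤ C * (ρ q.2 * max (2 / ‖q.1 - q.2‖ - 1 / (2 * R)) 0) := by gcongr

lemma admissible_of_contDiff {p lam : ℝ} {u : R3 → ℝ} (h0 : ∀ x, 0 ≤ u x) (hu : ContDiff ℝ 1 u)
    (hs : HasCompactSupport u) (hm : ∫ x, u x ^ 2 ≤ lam) :
    Admissible p lam (fun x => u x ^ 2) (gradient u) := by
  have hc2 : Continuous (fun x => u x ^ 2) := hu.continuous.pow 2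
  have hs2 : HasCompactSupport (fun x => u x ^ 2) := hs.comp_left (g := fun t => t ^ 2) (by simp)
  have hcf : Continuous (fderiv ℝ u) := hu.continuous_fderiv (by norm_num)
  have hcg : Continuous (gradient u) :=
    (InnerProductSpace.toDual ℝ R3).symm.continuous.comp hcf
  have hsg : HasCompactSupport (gradient u) :=
    (hs.fderiv ℝ).comp_left (g := (InnerProductSpace.toDual ℝ R3).symm) (by simp)
  refine ⟨fun x => by positivity, ?_, hcg.memLp_of_hasCompactSupport hsg,
    hc2.integrable_of_hasCompactSupport hs2, hc2.memLp_of_hasCompactSupport hs2,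
    coulomb_integrable (fun x => by positivity) hc2 hs2, hm⟩
  intro φ hφ hφs v
  simp only [Real.sqrt_sq (h0 _), inner_gradient_eq]
  have hφc : Continuous φ := hφ.continuous
  have hφd : Continuous (fun x => fderiv ℝ φ x v) :=
    (hφ.continuous_fderiv (by simp)).clm_apply continuous_const
  have hud : Continuous (fun x => fderiv ℝ u x v) := hcf.clm_apply continuous_const
  apply integral_mul_fderiv_eq_neg_fderiv_mul_of_integrable
  · exact (hud.mul hφc).integrable_of_hasCompactSupport hφs.mul_left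
  · exact (hu.continuous.mul hφd).integrable_of_hasCompactSupport hs.mul_right
  · exact (hu.continuous.mul hφc).integrable_of_hasCompactSupport hs.mul_right
  · intro x _; exact hu.differentiable (by norm_num) x
  · intro x _; exact hφ.differentiable (by simp) x

/-- regularised shifted Coulomb potential -/
noncomputable def wreg (ε : ℝ) (x : R3) : ℝ := (‖x‖ ^ 2 + ε) ^ (-(1 / 2) : ℝ) - 1

/-- smooth compactly supported trial functions -/
noncomputable def ureg (s ε : ℝ) (x : R3) : ℝ :=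
  expNegInvGlue (wreg ε x / ε) * (wreg ε x ^ 2 + ε) ^ (s / 2)

lemma contDiff_wreg {ε : ℝ} (hε : 0 < ε) : ContDiff ℝ 1 (wreg ε) := by
  unfold wreg
  apply ContDiff.sub _ contDiff_const
  apply ContDiff.rpow_const_of_ne ((contDiff_norm_sq ℝ).add contDiff_const)
  intro x; positivity

lemma contDiff_ureg (s : ℝ) {ε : ℝ} (hε : 0 < ε) : ContDiff ℝ 1 (ureg s ε) := by
  unfold ureg
  apply ContDiff.mul
  · exact expNegInvGlue.contDiff.comp ((contDiff_wreg hε).div_const ε)
  · apply ContDiff.rpow_const_of_ne (((contDiff_wreg hε).pow 2).add contDiff_const)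
    intro x; positivity

lemma ureg_nonneg (s : ℝ) {ε : ℝ} (hε : 0 < ε) (x : R3) : 0 ≤ ureg s ε x :=
  mul_nonneg (expNegInvGlue.nonneg _) (by positivity)

lemma ureg_zero (s : ℝ) {ε : ℝ} (hε : 0 < ε) {x : R3} (hx : 1 ≤ ‖x‖) : ureg s ε x = 0 := by
  have : wreg ε x ≤ 0 := by
    unfold wreg
    rw [sub_nonpos]
    apply Real.rpow_le_one_of_one_le_of_nonpos _ (by norm_num)
    nlinarith
  unfold ureg
  rw [expNegInvGlue.zero_of_nonpos (div_nonpos_of_nonpos_of_nonneg this hε.le), zero_mul]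

lemma ureg_support (s : ℝ) {ε : ℝ} (hε : 0 < ε) : HasCompactSupport (ureg s ε) := by
  apply HasCompactSupport.intro (isCompact_closedBall (0 : R3) 1)
  intro x hx
  rw [mem_closedBall_zero_iff, not_le] at hx
  exact ureg_zero s hε hx.le

lemma glue_le_one (t : ℝ) : expNegInvGlue t ≤ 1 := by
  unfold expNegInvGlue
  split_ifs with h
  · norm_num
  · rw [Real.exp_le_one_iff, neg_nonpos]; exact inv_nonneg.2 (le_of_lt (not_le.1 h))

lemma wreg_zero {x : R3} (hx : 0 < ‖x‖) : wreg 0 x = 1 / ‖x‖ - 1 := by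
  unfold wreg
  rw [add_zero, ← Real.rpow_natCast, ← Real.rpow_mul hx.le]
  norm_num [Real.rpow_neg_one]

lemma ureg_le {s ε : ℝ} (hs : 0 ≤ s) (hε : 0 < ε) (hε1 : ε ≤ 1) {x : R3} (hx : 0 < ‖x‖)
    (hx1 : ‖x‖ ≤ 1) : ureg s ε x ≤ (2 / ‖x‖) ^ s := by
  have hw1 : wreg ε x ≤ 1 / ‖x‖ - 1 := by
    rw [← wreg_zero hx]
    unfold wreg
    rw [sub_le_sub_iff_right]
    apply Real.rpow_le_rpow_of_nonpos (by positivity) (by linarith) (by norm_num)
  have hw2 : -1 ≤ wreg ε x := by
    unfold wreg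
    have : 0 ≤ (‖x‖ ^ 2 + ε) ^ (-(1 / 2) : ℝ) := by positivity
    linarith
  have h1 : 1 ≤ 1 / ‖x‖ := by rw [le_div_iff₀ hx]; linarith
  have h2 : wreg ε x ^ 2 + ε ≤ (2 / ‖x‖) ^ 2 := by
    have : 2 / ‖x‖ = 2 * (1 / ‖x‖) := by ring
    rw [this]
    nlinarith
  calc ureg s ε x ≤ 1 * (wreg ε x ^ 2 + ε) ^ (s / 2) := by
        unfold ureg; gcongr; exact glue_le_one _
    _ ≤ 1 * ((2 / ‖x‖) ^ 2) ^ (s / 2) := by gcongr
    _ = (2 / ‖x‖) ^ s := by
        rw [one_mul, ← Real.rpow_natCast, ← Real.rpow_mul (by positivity)]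
        congr 1; push_cast; ring

lemma ureg_tendsto {s : ℝ} (hs : 0 < s) {x : R3} (hx : 0 < ‖x‖) :
    Tendsto (fun ε => ureg s ε x) (𝓝[>] 0) (𝓝 ((max (1 / ‖x‖ - 1) 0) ^ s)) := by
  by_cases hx1 : 1 ≤ ‖x‖
  · have : max (1 / ‖x‖ - 1) 0 = 0 := by
      apply max_eq_right; rw [sub_nonpos, div_le_one hx]; exact hx1
    rw [this, Real.zero_rpow hs.ne']
    apply tendsto_const_nhds.congr'
    filter_upwards [self_mem_nhdsWithin] with ε hε
    exact (ureg_zero s hε hx1).symm
  push Not at hx1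
  have hw0 : 0 < 1 / ‖x‖ - 1 := by rw [sub_pos, lt_div_iff₀ hx]; linarith
  rw [max_eq_left hw0.le]
  have hwc : ContinuousAt (fun ε => wreg ε x) 0 := by
    unfold wreg
    apply ContinuousAt.sub _ continuousAt_const
    apply ContinuousAt.rpow_const (continuousAt_const.add continuousAt_id)
    left; show ‖x‖ ^ 2 + 0 ≠ 0; positivity
  have hw00 : 0 < wreg 0 x := by rw [wreg_zero hx]; exact hw0
  have hc : ContinuousAt
      (fun ε => Real.exp (-(ε / wreg ε x)) * (wreg ε x ^ 2 + ε) ^ (s / 2)) 0 := by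
    apply ContinuousAt.mul
    · exact ((continuousAt_id.div hwc hw00.ne').neg).rexp
    · apply ContinuousAt.rpow_const ((hwc.pow 2).add continuousAt_id)
      left; show wreg 0 x ^ 2 + 0 ≠ 0; positivity
  have hv : Real.exp (-(0 / wreg 0 x)) * (wreg 0 x ^ 2 + 0) ^ (s / 2) = (1 / ‖x‖ - 1) ^ s := by
    rw [zero_div, neg_zero, Real.exp_zero, one_mul, add_zero, ← Real.rpow_natCast,
      ← Real.rpow_mul hw00.le, wreg_zero hx]
    congr 1; push_cast; ring
  have ht := hc.tendsto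
  rw [hv] at ht
  apply (ht.mono_left nhdsWithin_le_nhds).congr'
  have hev : ∀ᶠ ε in 𝓝[>] (0 : ℝ), 0 < wreg ε x :=
    (hwc.eventually (lt_mem_nhds hw00)).filter_mono nhdsWithin_le_nhds
  filter_upwards [self_mem_nhdsWithin, hev] with ε hε hw
  have hε' : 0 < ε := hε
  unfold ureg expNegInvGlue
  rw [if_neg (not_le.2 (div_pos hw hε')), inv_div]

theorem exists_test {p : ℝ} (hp : 3 / 2 < p) {δ : ℝ} (hδ : 0 < δ) :
    ∃ u : R3 → ℝ, (∀ x, 0 ≤ u x) ∧ ContDiff ℝ 1 u ∧ HasCompactSupport u ∧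
      1 / p * (∫ x, (u x ^ 2) ^ p) - (∫ x, 1 / ‖x‖ * u x ^ 2) + ∫ x, u x ^ 2 <
        δ - ∫ x : R3, (max (1 / ‖x‖ - 1) 0) ^ (p / (p - 1)) / (p / (p - 1)) := by
  have hp1 : 1 < p := by linarith
  have hp0 : 0 < p := by linarith
  have hp1' : 0 < p - 1 := by linarith
  set s := 1 / (2 * (p - 1)) with hs
  have hs0 : 0 < s := by positivity
  set q := p / (p - 1) with hq
  have hq0 : 0 < q := conj_pos hp1
  have hne : ∀ᵐ x : R3, 0 < ‖x‖ := by
    have : ∀ᵐ x : R3, x ≠ 0 := by
      rw [ae_iff]; simp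
    filter_upwards [this] with x hx using norm_pos_iff.2 hx
  have hsq : ∀ W : ℝ, 0 ≤ W → (W ^ s) ^ 2 = W ^ (1 / (p - 1)) := by
    intro W hW
    rw [← Real.rpow_natCast, ← Real.rpow_mul hW]
    congr 1; rw [hs]; push_cast; field_simp
  have hpw : ∀ W : ℝ, 0 ≤ W → (W ^ (1 / (p - 1))) ^ p = W ^ q := by
    intro W hW
    rw [← Real.rpow_mul hW]
    congr 1; rw [hq]; field_simp
  have hmul : ∀ W : ℝ, 0 ≤ W → W * W ^ (1 / (p - 1)) = W ^ q := by
    intro W hW
    rw [← Real.rpow_one_add' hW (by positivity)]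
    congr 1; rw [hq]; field_simp; ring
  have hlim : Tendsto (fun ε => ∫ x, (1 / p * (ureg s ε x ^ 2) ^ p - 1 / ‖x‖ * ureg s ε x ^ 2 +
      ureg s ε x ^ 2)) (𝓝[>] 0) (𝓝 (∫ x : R3, -((max (1 / ‖x‖ - 1) 0) ^ q / q))) := by
    apply tendsto_integral_filter_of_dominated_convergence
      (fun x : R3 => 2 * (max (4 / ‖x‖ - 2) 0) ^ q)
    · filter_upwards [self_mem_nhdsWithin] with ε hε
      apply Measurable.aestronglyMeasurable
      have := (contDiff_ureg s hε).continuous.measurable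
      fun_prop
    · have : ∀ᶠ ε in 𝓝[>] (0 : ℝ), ε ≤ 1 :=
        (eventually_le_nhds one_pos).filter_mono nhdsWithin_le_nhds
      filter_upwards [self_mem_nhdsWithin, this] with ε hε hε1
      filter_upwards [hne] with x hx
      have hm0 : 0 ≤ max (4 / ‖x‖ - 2) 0 := le_max_right _ _
      by_cases hx1 : 1 ≤ ‖x‖
      · rw [ureg_zero s hε hx1]
        simp only [ne_eq, OfNat.ofNat_ne_zero, not_false_eq_true, zero_pow, Real.zero_rpow hp0.ne',
          mul_zero, sub_self, add_zero, norm_zero]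
        positivity
      push Not at hx1
      have hB := ureg_le hs0.le hε hε1 hx hx1.le
      have hu0 := ureg_nonneg s hε x
      set B := 2 / ‖x‖ with hBdef
      have hB0 : 0 < B := by positivity
      have h1 : 1 ≤ 1 / ‖x‖ := by rw [le_div_iff₀ hx]; linarith
      have hB2 : B = 2 * (1 / ‖x‖) := by rw [hBdef]; ring
      have hu2 : ureg s ε x ^ 2 ≤ B ^ (1 / (p - 1)) := by
        rw [← hsq B hB0.le]; gcongr
      have hup : (ureg s ε x ^ 2) ^ p ≤ B ^ q := by
        rw [← hpw B hB0.le]; gcongr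
      have hBq : B ^ q ≤ (max (4 / ‖x‖ - 2) 0) ^ q := by
        apply Real.rpow_le_rpow hB0.le _ hq0.le
        refine le_trans ?_ (le_max_left _ _)
        have : 4 / ‖x‖ = 4 * (1 / ‖x‖) := by ring
        linarith
      have hp2 : 1 / p ≤ 1 := by rw [div_le_one hp0]; linarith
      have a1 : 0 ≤ (ureg s ε x ^ 2) ^ p := by positivity
      have a2 : 1 / p * (ureg s ε x ^ 2) ^ p ≤ B ^ q := by
        calc 1 / p * (ureg s ε x ^ 2) ^ p ≤ 1 * B ^ q := by gcongr
          _ = B ^ q := one_mul _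
      have a3 : 0 ≤ 1 / p * (ureg s ε x ^ 2) ^ p := by positivity
      have a4 : (1 / ‖x‖ - 1) * ureg s ε x ^ 2 ≤ B ^ q := by
        rw [← hmul B hB0.le]; gcongr; linarith
      have a5 : 0 ≤ (1 / ‖x‖ - 1) * ureg s ε x ^ 2 := mul_nonneg (by linarith) (by positivity)
      have a6 : 0 ≤ B ^ q := by positivity
      rw [Real.norm_eq_abs, abs_le]
      constructor <;> nlinarith
    · exact (integrable_estar (by norm_num) (by norm_num) hq0 (conj_lt_three hp)).const_mul 2
    · filter_upwards [hne] with x hx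
      have ht := ureg_tendsto hs0 hx
      set W := max (1 / ‖x‖ - 1) 0 with hW
      have hW0 : 0 ≤ W := le_max_right _ _
      have hc : Continuous (fun y : ℝ => 1 / p * (y ^ 2) ^ p - 1 / ‖x‖ * y ^ 2 + y ^ 2) := by
        have : Continuous (fun y : ℝ => (y ^ 2) ^ p) :=
          (continuous_pow 2).rpow_const (fun _ => Or.inr hp0.le)
        fun_prop
      have := (hc.tendsto _).comp ht
      suffices hv : -(W ^ q / q) =
          1 / p * ((W ^ s) ^ 2) ^ p - 1 / ‖x‖ * (W ^ s) ^ 2 + (W ^ s) ^ 2 by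
        rw [hv]; exact this
      rw [hsq W hW0, hpw W hW0]
      have e : (1 / ‖x‖ - 1) * W ^ (1 / (p - 1)) = W ^ q := by
        rcases le_total (1 / ‖x‖ - 1) 0 with h | h
        · rw [hW, max_eq_right h, Real.zero_rpow hq0.ne', Real.zero_rpow (by positivity), mul_zero]
        · rw [← hmul W hW0, hW, max_eq_left h]
      have e2 : W ^ q / q = W ^ q - 1 / p * W ^ q := by
        rw [hq]; field_simp
      rw [e2]; linarith
  rw [integral_neg] at hlim
  have hev := hlim.eventually (gt_mem_nhds (show -∫ x : R3, (max (1 / ‖x‖ - 1) 0) ^ q / q <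
    δ - ∫ x : R3, (max (1 / ‖x‖ - 1) 0) ^ q / q by linarith))
  obtain ⟨ε, hε1, hε⟩ := (hev.and self_mem_nhdsWithin).exists
  have hε0 : 0 < ε := hε
  refine ⟨ureg s ε, ureg_nonneg s hε0, contDiff_ureg s hε0, ureg_support s hε0, ?_⟩
  have hc := (contDiff_ureg s hε0).continuous
  have hc2 : Continuous (fun x => ureg s ε x ^ 2) := hc.pow 2
  have hs2 : HasCompactSupport (fun x => ureg s ε x ^ 2) :=
    (ureg_support s hε0).comp_left (g := fun t => t ^ 2) (by simp)
  have hi := hc2.integrable_of_hasCompactSupport (μ := volume) hs2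
  have hip : Integrable (fun x => (ureg s ε x ^ 2) ^ p) := by
    apply (hc2.rpow_const (fun _ => Or.inr hp0.le)).integrable_of_hasCompactSupport
    exact hs2.comp_left (g := fun t => t ^ p) (Real.zero_rpow hp0.ne')
  have hV := integrable_V hp one_pos (fun x => by positivity) hi hip
  have hi2 : Integrable (fun x => 1 / p * (ureg s ε x ^ 2) ^ p - 1 / ‖x‖ * ureg s ε x ^ 2) :=
    (hip.const_mul _).sub hV
  rw [integral_add hi2 hi, integral_sub (hip.const_mul _) hV,
    integral_const_mul] at hε1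
  exact hε1

end Pool.Agent.P.MP_3d36e1_mp
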